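import Pool.Agent.T2H67.Chev.Ex
import Pool.Agent.T2H35.Chev.Rho

/-!
# The ring `ℤ/pⁿ`
-/

namespace Pool.Agent.T2H67.Chev

open Pool.Agent.T2H35.Chev

lemma good_zmod (p n : ℕ) [hp : Fact p.Prime] (hn : 1 ≤ n) (hp' : 60 < p) :
    Good (ZMod (p ^ n)) := by
  intro z hz hz'
  rw [ZMod.coe_int_isUnit_iff_isCoprime]
  have h1 : IsCoprime (p : ℤ) z := by
    rw [Int.isCoprime_iff_gcd_eq_one]
    have h2 : Nat.Coprime p z.natAbs := by
      rw [Nat.Prime.coprime_iff_not_dvd hp.out]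
      intro hd
      have h3 := Nat.le_of_dvd (Int.natAbs_pos.2 hz) hd
      have h4 : (z.natAbs : ℤ) ≤ 60 := by rw [Int.natCast_natAbs]; exact hz'
      omega
    rw [Int.gcd_def]
    simpa using h2
  push_cast
  exact h1.pow_left

lemma exists_tau (p n : ℕ) [hp : Fact p.Prime] (hn : 1 ≤ n) :
    ∃ τ : (ZMod (p ^ n))ˣ, τ ^ (p - 1) = 1 ∧
      ∀ m : ℕ, 0 < m → m < p - 1 → redP p n hn ((τ ^ m : (ZMod (p ^ n))ˣ) : ZMod (p ^ n)) ≠ 1 := by
  obtain ⟨g, hg⟩ := IsCyclic.exists_generator (α := (ZMod p)ˣ)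
  have hog : orderOf g = p - 1 := by
    rw [orderOf_eq_card_of_forall_mem_zpowers hg, Nat.card_eq_fintype_card, ZMod.card_units p]
  obtain ⟨u, hu⟩ := ZMod.unitsMap_surjective (dvd_pow_self p (by omega : n ≠ 0)) g
  refine ⟨u ^ (p ^ (n - 1)), ?_, ?_⟩
  · rw [← pow_mul]
    have := ZMod.pow_totient u
    rwa [Nat.totient_prime_pow hp.out (by omega)] at this
  · intro m hm hm' h
    have hgp : g ^ p = g := by
      have h1 : g ^ (p - 1) = 1 := by rw [← hog, pow_orderOf_eq_one]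
      have h2 : g ^ p = g ^ (p - 1) * g := by
        rw [← pow_succ]; congr 1
        have := hp.out.pos
        omega
      rw [h2, h1, one_mul]
    have hgpk : ∀ k : ℕ, g ^ (p ^ k) = g := by
      intro k
      induction k with
      | zero => simp
      | succ k ih => rw [pow_succ, pow_mul, ih, hgp]
    have h3 : ZMod.unitsMap (dvd_pow_self p (by omega : n ≠ 0)) ((u ^ (p ^ (n - 1))) ^ m) =
        g ^ m := by
      rw [map_pow, map_pow, hu, hgpk]
    have h4 : g ^ m = 1 := by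
      rw [← h3]
      apply Units.ext
      exact h
    have := orderOf_le_of_pow_eq_one hm h4
    omega

end Pool.Agent.T2H67.Chev
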