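import Pool.Agent.T2H67.Chev.BC
import Pool.Agent.T2H67.Chev.Zp

/-!
# The group-level facts: construction of `CG`
-/

namespace Pool.Agent.T2H67.Chev

open Module Pool.Agent.T2H35.Chev TensorProduct

set_option linter.unusedSectionVars false
set_option linter.unusedVariables false

variable {ι V W : Type} [Fintype ι] [DecidableEq ι] [AddCommGroup V] [Module ℚ V]
  [AddCommGroup W] [Module ℚ W]
variable {P : RootPairing ι ℚ V W} [P.IsCrystallographic] [P.IsReduced] [P.IsRootSystem]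
    {b : P.Base} {L : Type} [LieRing L] (B : ChevalleyBasis P b L)

section Gen

variable (A : Type) [CommRing A] (hA : Good A)

/-- root elements in `Gad` -/
noncomputable def xg (i : ι) (s : A) : B.Gad A :=
  ⟨Phi B A ((bc B A).X hA i s), Subgroup.subset_closure ⟨i, s, mat_ex B A i s⟩⟩

/-- the map to the units of the endomorphism ring -/
noncomputable def ff : B.Gad A →* (Module.End A (A ⊗[ℤ] L))ˣ :=
  (Phi B A).symm.toMonoidHom.comp (B.Gad A).subtype

lemma ff_inj : Function.Injective (ff B A) := by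
  intro g h e
  exact Subtype.ext ((Phi B A).symm.injective e)

lemma ff_xg (i : ι) (s : A) : ff B A (xg B A hA i s) = (bc B A).X hA i s :=
  (Phi B A).symm_apply_apply _

lemma xg_val (i : ι) (s : A) : (xg B A hA i s).1.1 = B.xMat A i s := mat_ex B A i s

lemma gen_xg : Subgroup.closure {g | ∃ i s, g = xg B A hA i s} = ⊤ := by
  have h := Subgroup.closure_closure_coe_preimage
    (k := {g : GL (b.support ⊕ ι) A |
      ∃ i t, (g : Matrix (b.support ⊕ ι) (b.support ⊕ ι) A) = B.xMat A i t})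
  rw [eq_top_iff]
  rintro g -
  have hg : g ∈ (⊤ : Subgroup (B.Gad A)) := Subgroup.mem_top g
  have h' : Subgroup.closure (((↑) : B.Gad A → GL (b.support ⊕ ι) A) ⁻¹'
      {g | ∃ i t, (g : Matrix (b.support ⊕ ι) (b.support ⊕ ι) A) = B.xMat A i t}) = ⊤ := h
  rw [← h'] at hg
  refine Subgroup.closure_mono ?_ hg
  rintro g ⟨i, t, hit⟩
  refine ⟨i, t, ?_⟩
  apply Subtype.ext
  apply Units.ext
  rw [xg_val]
  exact hit

lemma mem_closure_iff (Ψ : Set ι) (g : B.Gad A) :
    g ∈ Subgroup.closure {g | ∃ k ∈ Ψ, ∃ s, g = xg B A hA k s} ↔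
      ff B A g ∈ (bc B A).US hA Ψ := by
  have himg : (ff B A) '' {g | ∃ k ∈ Ψ, ∃ s, g = xg B A hA k s} =
      {g | ∃ l ∈ Ψ, ∃ s, g = (bc B A).X hA l s} := by
    ext y
    constructor
    · rintro ⟨g, ⟨k, hk, s, rfl⟩, rfl⟩
      exact ⟨k, hk, s, ff_xg B A hA k s⟩
    · rintro ⟨k, hk, s, rfl⟩
      exact ⟨_, ⟨k, hk, s, rfl⟩, ff_xg B A hA k s⟩
  rw [CLie.US, ← himg, ← MonoidHom.map_closure]
  constructor
  · intro h
    exact Subgroup.mem_map_of_mem _ h
  · rintro ⟨g', hg', e⟩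
    rwa [ff_inj B A e] at hg'

include hA in
lemma ff_LAut (g : B.Gad A) : ff B A g ∈ LAut A (A ⊗[ℤ] L) := by
  have h1 : g ∈ Subgroup.closure {g | ∃ k ∈ (Set.univ : Set ι), ∃ s, g = xg B A hA k s} := by
    have : g ∈ Subgroup.closure {g | ∃ i s, g = xg B A hA i s} := by
      rw [gen_xg]; exact Subgroup.mem_top g
    refine Subgroup.closure_mono ?_ this
    rintro g ⟨i, s, rfl⟩
    exact ⟨i, Set.mem_univ i, s, rfl⟩
  exact (bc B A).US_LAut hA _ ((mem_closure_iff B A hA _ g).1 h1)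

lemma g_xadd (i : ι) (s t : A) : xg B A hA i (s + t) = xg B A hA i s * xg B A hA i t := by
  apply ff_inj B A
  rw [map_mul, ff_xg, ff_xg, ff_xg, CLie.X_add]

lemma g_comm (i j : ι) (s t : A) (hij : P.root i + P.root j ≠ 0) :
    (xg B A hA i s * xg B A hA j t * (xg B A hA i s)⁻¹ * (xg B A hA j t)⁻¹) ∈
      Subgroup.closure {g | ∃ k ∈ Psi P i j, ∃ s, g = xg B A hA k s} := by
  rw [mem_closure_iff]
  simp only [map_mul, map_inv, ff_xg]
  by_cases h1 : i = j
  · subst h1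
    rw [← CLie.X_add, add_comm s t, CLie.X_add, mul_inv_cancel_right, mul_inv_cancel]
    exact one_mem _
  · have h2 : P.root i ≠ - P.root j := fun h => hij (by rw [h, neg_add_cancel])
    exact (bc B A).comm_mem hA h1 h2 s t

lemma g_lead (i j k : ι) (s t : A) (hk : P.root k = P.root i + P.root j) :
    xg B A hA k (-(Ncc B i j * s * t)) *
      (xg B A hA i s * xg B A hA j t * (xg B A hA i s)⁻¹ * (xg B A hA j t)⁻¹) ∈
      Subgroup.closure {g | ∃ l ∈ Psi P i j \ {k}, ∃ s, g = xg B A hA l s} := by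
  have hmem : P.root i + P.root j ∈ Set.range P.root := ⟨k, hk⟩
  obtain ⟨h1, h2⟩ := (RootPairing.IsReduced.linearIndependent_iff P).1
    (P.linearIndependent_of_add_mem_range_root' hmem)
  rw [mem_closure_iff]
  simp only [map_mul, map_inv, ff_xg]
  exact (bc B A).lead_mem hA h1 h2 hk s t

lemma g_sep (Ψ : Set ι) (k : ι) (s : A) (hcl : Closed P Ψ) (hpos : Pos P Ψ) (hk : k ∉ Ψ)
    (hmem : xg B A hA k s ∈ Subgroup.closure {g | ∃ l ∈ Ψ, ∃ s, g = xg B A hA l s}) : s = 0 := by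
  rw [mem_closure_iff, ff_xg] at hmem
  exact (bc B A).sep_US hA hcl hpos hk hmem

lemma g_conj {g : B.Gad A} {i j : ι} {u : A}
    (h : (ff B A g).val ((bc B A).E i) = u • (bc B A).E j) (s : A) :
    g * xg B A hA i s * g⁻¹ = xg B A hA j (u * s) := by
  apply ff_inj B A
  rw [map_mul, map_mul, map_inv, ff_xg, ff_xg]
  exact (bc B A).X_conj hA (ff_LAut B A hA g) h s

lemma g_gauss (u : B.Gad A)
    (hu : u ∈ Subgroup.closure {g | ∃ l ∈ {i | b.IsPos i}, ∃ s, g = xg B A hA l s})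
    (v : B.Gad A)
    (hv : v ∈ Subgroup.closure {g | ∃ l ∈ {i | ¬ b.IsPos i}, ∃ s, g = xg B A hA l s})
    (g : B.Gad A) (hg : ∀ i s, ∃ s', g * xg B A hA i s * g⁻¹ = xg B A hA i s')
    (hguv : g * u = v) : v = 1 := by
  rw [mem_closure_iff] at hu hv
  apply ff_inj B A
  rw [map_one]
  refine (bc B A).gauss_T hA (ff_LAut B A hA g) ?_ hu hv (by rw [← map_mul, hguv])
  intro i s
  obtain ⟨s', hs'⟩ := hg i s
  refine ⟨s', ?_⟩
  rw [← ff_xg, ← ff_xg, ← map_inv, ← map_mul, ← map_mul, hs']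

/-- the elements `n_c` -/
lemma ff_w (c : ι) (u : Aˣ) :
    ff B A (xg B A hA c u * xg B A hA (neg P c) (-(u⁻¹ : Aˣ)) * xg B A hA c u) =
      (bc B A).w hA c u := by
  rw [map_mul, map_mul, ff_xg, ff_xg]; rfl

lemma ff_n (c : ι) :
    ff B A (xg B A hA c 1 * xg B A hA (neg P c) (-1) * xg B A hA c 1) =
      (bc B A).w hA c 1 := by
  have := ff_w B A hA c 1
  simpa using this

lemma g_nconj (c i : ι) (s : A) :
    (xg B A hA c 1 * xg B A hA (neg P c) (-1) * xg B A hA c 1) * xg B A hA i s *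
      (xg B A hA c 1 * xg B A hA (neg P c) (-1) * xg B A hA c 1)⁻¹ =
      xg B A hA (P.reflectionPerm c i) ((bc B A).eta hA c i * s) :=
  g_conj B A hA (by rw [ff_n]; exact (bc B A).n_E' hA c i) s

lemma g_wself (c : ι) (u : Aˣ) (s : A) :
    (xg B A hA c u * xg B A hA (neg P c) (-(u⁻¹ : Aˣ)) * xg B A hA c u) * xg B A hA c s *
      (xg B A hA c u * xg B A hA (neg P c) (-(u⁻¹ : Aˣ)) * xg B A hA c u)⁻¹ =
      xg B A hA (neg P c) (-(((u⁻¹ : Aˣ) : A) * ((u⁻¹ : Aˣ) : A) * s)) := by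
  rw [g_conj B A hA (by rw [ff_w]; exact (bc B A).w_self hA c u) s, neg_mul]

lemma g_wconj (c : ι) (u : Aˣ) (i : ι) : ∃ v : A, ∀ s,
    (xg B A hA c u * xg B A hA (neg P c) (-(u⁻¹ : Aˣ)) * xg B A hA c u) * xg B A hA i s *
      (xg B A hA c u * xg B A hA (neg P c) (-(u⁻¹ : Aˣ)) * xg B A hA c u)⁻¹ =
      xg B A hA (P.reflectionPerm c i) (v * s) := by
  obtain ⟨v, hv⟩ := (bc B A).w_E hA c u i
  exact ⟨v, fun s => g_conj B A hA (by rw [ff_w]; exact hv) s⟩

end Gen

section Level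

variable (p n : ℕ) [hpf : Fact p.Prime] (hn : 1 ≤ n) (hp : Fintype.card ι < p) (hp' : 60 < p)

lemma rho_red (g : B.Gad (ZMod (p ^ n))) (v : ZMod (p ^ n) ⊗[ℤ] L) :
    rhoSub p n hn (B.Gad (ZMod (p ^ n))) g
      (fun k => redP p n hn ((bc B (ZMod (p ^ n))).bs.repr v k)) =
      fun k => redP p n hn ((bc B (ZMod (p ^ n))).bs.repr ((ff B (ZMod (p ^ n)) g).val v) k) := by
  funext k
  have h1 := congrFun (repr_app B (ZMod (p ^ n)) g.1 v) k
  change _ = redP p n hn ((bc B (ZMod (p ^ n))).bs.repr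
    (((Phi B (ZMod (p ^ n))).symm g.1).val v) k)
  rw [h1, RingHom.map_mulVec]
  rfl

/-- lift of a vector -/
noncomputable def lft (m : (b.support ⊕ ι) → ZMod p) : ZMod (p ^ n) ⊗[ℤ] L :=
  (bc B (ZMod (p ^ n))).bs.equivFun.symm (fun k => ((m k).val : ZMod (p ^ n)))

lemma repr_lft (m : (b.support ⊕ ι) → ZMod p) (k : b.support ⊕ ι) :
    (bc B (ZMod (p ^ n))).bs.repr (lft B p n m) k = ((m k).val : ZMod (p ^ n)) := by
  rw [← Basis.equivFun_apply, lft, LinearEquiv.apply_symm_apply]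

lemma red_lft (m : (b.support ⊕ ι) → ZMod p) :
    (fun k => redP p n hn ((bc B (ZMod (p ^ n))).bs.repr (lft B p n m) k)) = m := by
  funext k
  rw [repr_lft, map_natCast, ZMod.natCast_zmod_val]

lemma rho_lft (g : B.Gad (ZMod (p ^ n))) (m : (b.support ⊕ ι) → ZMod p) :
    rhoSub p n hn (B.Gad (ZMod (p ^ n))) g m =
      fun k => redP p n hn ((bc B (ZMod (p ^ n))).bs.repr
        ((ff B (ZMod (p ^ n)) g).val (lft B p n m)) k) := by
  rw [← rho_red, red_lft]

lemma lft_car {m : (b.support ⊕ ι) → ZMod p} (hm : ∀ i, m (Sum.inr i) = 0) :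
    lft B p n m ∈ (bc B (ZMod (p ^ n))).Car := by
  intro k hk
  rcases k with j | i
  · exact absurd ⟨j, rfl⟩ hk
  · rw [repr_lft, hm]; simp

lemma red_rt (c : ι) (m : (b.support ⊕ ι) → ZMod p) :
    redP p n hn ((bc B (ZMod (p ^ n))).rt c (lft B p n m)) = rootFun P b c m := by
  rw [CLie.rt_apply, map_sum, rootFun]
  refine Finset.sum_congr rfl fun j _ => ?_
  rw [map_mul, map_intCast, repr_lft, map_natCast, ZMod.natCast_zmod_val]

lemma red_repr_E (i : ι) : (fun k => redP p n hn ((bc B (ZMod (p ^ n))).bs.repr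
    ((bc B (ZMod (p ^ n))).E i) k)) = Pi.single (Sum.inr i) 1 := by
  funext k
  rw [Basis.repr_self, Finsupp.single_apply, Pi.single_apply]
  by_cases h : k = Sum.inr i
  · rw [if_pos h, if_pos h.symm, map_one]
  · rw [if_neg h, if_neg (Ne.symm h), map_zero]

/-- the vectors `h_c` over `ℤ/p` -/
noncomputable def hv (b : P.Base) (c : ι) : (b.support ⊕ ι) → ZMod p :=
  Sum.elim (fun j => (crd b c j : ZMod p)) (fun _ => 0)

lemma red_repr_H (c : ι) : (fun k => redP p n hn ((bc B (ZMod (p ^ n))).bs.repr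
    ((bc B (ZMod (p ^ n))).H c) k)) = hv p b c := by
  funext k
  rcases k with j | i
  · have : (bc B (ZMod (p ^ n))).bs.repr ((bc B (ZMod (p ^ n))).H c) (Sum.inl j) =
        (crd b c j : ZMod (p ^ n)) := by
      simp only [CLie.H, map_sum, map_smul, Finsupp.coe_finsetSum, Finset.sum_apply,
        Finsupp.smul_apply, Basis.repr_self, Finsupp.single_apply, Sum.inl.injEq, smul_eq_mul,
        mul_ite, mul_one, mul_zero]
      rw [Finset.sum_ite_eq' Finset.univ j, if_pos (Finset.mem_univ _)]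
      rfl
    rw [this, map_intCast]; rfl
  · have : (bc B (ZMod (p ^ n))).bs.repr ((bc B (ZMod (p ^ n))).H c) (Sum.inr i) = 0 :=
      (bc B (ZMod (p ^ n))).H_mem c _ (by rintro ⟨j, e⟩; cases e)
    rw [this, map_zero]; rfl

section K

variable (hA : Good (ZMod (p ^ n)))

lemma k_raise (c : ι) (s : ZMod (p ^ n)) (m : (b.support ⊕ ι) → ZMod p) (k : b.support ⊕ ι)
    (h : ∀ k' (a : ℕ), 1 ≤ a → wt P b k = wt P b k' + a • P.root c → m k' = 0) :
    rhoSub p n hn (B.Gad (ZMod (p ^ n))) (xg B _ hA c s) m k = m k := by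
  rw [rho_lft, ff_xg]
  have h1 : lft B p n m ∈ (bc B (ZMod (p ^ n))).Sp {k' | m k' ≠ 0} := by
    intro k' hk'
    rw [repr_lft]
    have : m k' = 0 := by
      by_contra h0
      exact hk' h0
    rw [this]; simp
  have h2 := (bc B (ZMod (p ^ n))).X_sub_mem hA c s h1 k (by
    rintro ⟨k', hk', a, ha, e⟩
    exact hk' (h k' a ha e))
  rw [map_sub, Finsupp.sub_apply, sub_eq_zero] at h2
  beta_reduce
  rw [h2]
  exact congrFun (red_lft B p n hn m) k

lemma k_act1 (c i k : ι) (s : ZMod (p ^ n)) (hk : P.root k = P.root i + P.root c) :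
    rhoSub p n hn (B.Gad (ZMod (p ^ n))) (xg B _ hA c s) (Pi.single (Sum.inr i) 1) (Sum.inr k) =
      redP p n hn s * (Ncc B c i : ZMod p) := by
  rw [← red_repr_E B p n hn i, rho_red, ff_xg]
  set C := bc B (ZMod (p ^ n)) with hC
  have h1 := C.X_second hA c s (C.bs_mem (S := {Sum.inr i}) rfl) (Sum.inr k) (by
    rintro ⟨k', hk', a, ha, e⟩
    rw [Set.mem_singleton_iff.1 hk'] at e
    simp only [wt, Sum.elim_inr] at e
    rw [hk, add_right_inj] at e
    have h3 : ((a : ℚ) - 1) • P.root c = 0 := by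
      rw [sub_smul, one_smul, Nat.cast_smul_eq_nsmul, ← e, sub_self]
    rcases smul_eq_zero.1 h3 with h4 | h4
    · have : (2 : ℚ) ≤ a := by exact_mod_cast ha
      linarith
    · exact P.ne_zero c h4)
  have h2 : C.D c (C.E i) = (Ncc B c i : ZMod (p ^ n)) • C.E k := by
    rw [LieAlgebra.ad_apply]
    exact C.ee c i k (by rw [hk, add_comm])
  have hne : k ≠ i := by
    rintro rfl
    exact P.ne_zero c (left_eq_add.1 hk)
  rw [h2, map_sub, map_sub, Finsupp.sub_apply, Finsupp.sub_apply, map_smul, map_smul,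
    Finsupp.smul_apply, Finsupp.smul_apply, Basis.repr_self, Basis.repr_self,
    Finsupp.single_eq_same, Finsupp.single_apply,
    if_neg (fun e => hne (Sum.inr_injective e).symm), sub_zero, sub_eq_zero, smul_eq_mul,
    smul_eq_mul, mul_one] at h1
  beta_reduce
  rw [h1, map_mul, map_intCast]

lemma k_act_cartan (c : ι) (s : ZMod (p ^ n)) (m : (b.support ⊕ ι) → ZMod p)
    (hm : ∀ i, m (Sum.inr i) = 0) :
    rhoSub p n hn (B.Gad (ZMod (p ^ n))) (xg B _ hA c s) m =
      m - (redP p n hn s * rootFun P b c m) • Pi.single (Sum.inr c) 1 := by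
  rw [rho_lft, ff_xg, CLie.X_car _ hA c s (lft_car B p n hm), ← red_repr_E B p n hn c,
    ← red_rt B p n hn c m]
  funext k
  rw [map_sub, map_smul, Finsupp.sub_apply, Finsupp.smul_apply, map_sub, smul_eq_mul, map_mul,
    map_mul, Pi.sub_apply, Pi.smul_apply, smul_eq_mul]
  congr 1
  exact congrFun (red_lft B p n hn m) k

include B n in
lemma k_hvec_self (c : ι) : rootFun P b c (hv p b c) = 2 := by
  have h1 := (bc B (ZMod (p ^ n))).pairing_crd c c
  rw [P.pairingIn_same] at h1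
  have h2 := congrArg (Int.cast : ℤ → ZMod p) h1
  push_cast at h2
  rw [rootFun, h2]
  rfl

lemma k_act_opp (c : ι) (s : ZMod (p ^ n)) :
    rhoSub p n hn (B.Gad (ZMod (p ^ n))) (xg B _ hA c s) (Pi.single (Sum.inr (neg P c)) 1) =
      Pi.single (Sum.inr (neg P c)) 1 + redP p n hn s • hv p b c -
        (redP p n hn s ^ 2) • Pi.single (Sum.inr c) 1 := by
  rw [← red_repr_E B p n hn (neg P c), ← red_repr_E B p n hn c, ← red_repr_H B p n hn c,
    rho_red, ff_xg, CLie.X_neg]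
  funext k
  simp only [map_sub, map_add, map_smul, Finsupp.sub_apply, Finsupp.add_apply,
    Finsupp.smul_apply, smul_eq_mul, map_mul, map_pow, Pi.sub_apply, Pi.add_apply, Pi.smul_apply]

lemma k_n_cartan (c : ι) (m : (b.support ⊕ ι) → ZMod p) (hm : ∀ i, m (Sum.inr i) = 0) :
    rhoSub p n hn (B.Gad (ZMod (p ^ n)))
      (xg B _ hA c 1 * xg B _ hA (neg P c) (-1) * xg B _ hA c 1) m =
      m - rootFun P b c m • hv p b c := by
  rw [rho_lft, ff_n, CLie.w_car _ hA c 1 (lft_car B p n hm), ← red_repr_H B p n hn c,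
    ← red_rt B p n hn c m]
  funext k
  rw [map_sub, map_smul, Finsupp.sub_apply, Finsupp.smul_apply, map_sub, smul_eq_mul, map_mul,
    Pi.sub_apply, Pi.smul_apply, smul_eq_mul]
  congr 1
  exact congrFun (red_lft B p n hn m) k

lemma k_n_e (c i : ι) :
    rhoSub p n hn (B.Gad (ZMod (p ^ n)))
      (xg B _ hA c 1 * xg B _ hA (neg P c) (-1) * xg B _ hA c 1) (Pi.single (Sum.inr i) 1) =
      ((bc B (ZMod (p ^ n))).eta hA c i : ZMod p) •
        Pi.single (Sum.inr (P.reflectionPerm c i)) 1 := by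
  rw [← red_repr_E B p n hn i, rho_red, ff_n, CLie.n_E', ← red_repr_E B p n hn]
  funext k
  rw [map_smul, Finsupp.smul_apply, smul_eq_mul, map_mul, map_intCast, Pi.smul_apply, smul_eq_mul]

/-- the torus elements in `Gad` -/
noncomputable def tg (q : (ZMod (p ^ n))ˣ) (e : ι) : B.Gad (ZMod (p ^ n)) :=
  (xg B _ hA e q * xg B _ hA (neg P e) (-(q⁻¹ : (ZMod (p ^ n))ˣ)) * xg B _ hA e q) *
    (xg B _ hA e 1 * xg B _ hA (neg P e) (-1) * xg B _ hA e 1)⁻¹

lemma ff_tg (q : (ZMod (p ^ n))ˣ) (e : ι) :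
    ff B _ (tg B p n hA q e) = (bc B (ZMod (p ^ n))).tt hA e q := by
  rw [tg, map_mul, map_inv, ff_w, ff_n]; rfl

lemma k_t_act (τ : (ZMod (p ^ n))ˣ) (e : ι) (m : (b.support ⊕ ι) → ZMod p) :
    rhoSub p n hn (B.Gad (ZMod (p ^ n))) (tg B p n hA (τ ^ 2) e) m =
      fun k => redP p n hn (((τ ^ 2) ^ (wtp P b k e) : (ZMod (p ^ n))ˣ) : ZMod (p ^ n)) * m k := by
  rw [rho_lft, ff_tg]
  funext k
  rw [CLie.tt_repr, map_mul]
  congr 1
  exact congrFun (red_lft B p n hn m) k

include B n in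
lemma hv_support (j k : b.support) : hv p b (j : ι) (Sum.inl k) = if k = j then 1 else 0 := by
  have h : crd b j k = if k = j then 1 else 0 := (bc B (ZMod (p ^ n))).crd_support j k
  simp only [hv, Sum.elim_inl, h]
  split_ifs <;> simp

lemma k_inv0 (τ : (ZMod (p ^ n))ˣ)
    (hτ : redP p n hn (((τ ^ 2) ^ (2 : ℤ) : (ZMod (p ^ n))ˣ) : ZMod (p ^ n)) ≠ 1)
    (N : Subgroup (B.Gad (ZMod (p ^ n)))) (hNf : Finite N)
    (hN : ∀ c, xg B _ hA c 1 * xg B _ hA (neg P c) (-1) * xg B _ hA c 1 ∈ N)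
    (hNc : ((Nat.card N : ℕ) : ZMod p) ≠ 0) (h2 : (2 : ZMod p) ≠ 0)
    (m : (b.support ⊕ ι) → ZMod p)
    (hm : ∀ g, rhoSub p n hn (B.Gad (ZMod (p ^ n))) g m = m) : m = 0 := by
  have h1 : ∀ i, m (Sum.inr i) = 0 := by
    intro i
    have e1 := congrFun (hm (tg B p n hA (τ ^ 2) i)) (Sum.inr i)
    rw [k_t_act] at e1
    have e2 : wtp P b (Sum.inr i) i = 2 := CLie.wt_self i
    simp only [e2] at e1
    have e3 : (redP p n hn (((τ ^ 2) ^ (2 : ℤ) : (ZMod (p ^ n))ˣ) : ZMod (p ^ n)) - 1) *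
        m (Sum.inr i) = 0 := by rw [sub_mul, e1, one_mul, sub_self]
    rcases mul_eq_zero.1 e3 with e4 | e4
    · exact absurd (sub_eq_zero.1 e4) hτ
    · exact e4
  have hS : ∀ c, ∑ᶠ g : N, rhoSub p n hn (B.Gad (ZMod (p ^ n))) g.1 (hv p b c) = 0 := by
    intro c
    have := Fintype.ofFinite N
    rw [finsum_eq_sum_of_fintype]
    set nc : N := ⟨_, hN c⟩ with hnc
    have e1 : ∑ g : N, rhoSub p n hn (B.Gad (ZMod (p ^ n))) (g * nc : N).1 (hv p b c) =
        ∑ g : N, rhoSub p n hn (B.Gad (ZMod (p ^ n))) g.1 (hv p b c) :=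
      Fintype.sum_equiv (Equiv.mulRight nc) _ _ (fun g => rfl)
    have e2 : ∀ g : N, rhoSub p n hn (B.Gad (ZMod (p ^ n))) (g * nc : N).1 (hv p b c) =
        - rhoSub p n hn (B.Gad (ZMod (p ^ n))) g.1 (hv p b c) := by
      intro g
      rw [Subgroup.coe_mul, map_mul, Module.End.mul_apply]
      have e3 : rhoSub p n hn (B.Gad (ZMod (p ^ n))) nc.1 (hv p b c) = - hv p b c := by
        rw [hnc, k_n_cartan B p n hn hA c (hv p b c) (fun i => rfl), k_hvec_self B p n c]
        module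
      rw [e3, map_neg]
    simp only [e2, Finset.sum_neg_distrib] at e1
    set S := ∑ g : N, rhoSub p n hn (B.Gad (ZMod (p ^ n))) g.1 (hv p b c)
    have e4 : (2 : ZMod p) • S = 0 := by
      rw [two_smul]
      nth_rewrite 1 [← e1]
      abel
    exact (smul_eq_zero.1 e4).resolve_left h2
  have h3 : m = ∑ j : b.support, m (Sum.inl j) • hv p b (j : ι) := by
    funext k
    rcases k with k | i
    · simp only [Finset.sum_apply, Pi.smul_apply, hv_support B p n, smul_eq_mul, mul_ite, mul_one,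
        mul_zero]
      rw [Finset.sum_ite_eq Finset.univ k, if_pos (Finset.mem_univ _)]
    · rw [h1]; simp [hv]
  have h4 : (Nat.card N : ZMod p) • m = 0 := by
    have := Fintype.ofFinite N
    have e1 : ∑ g : N, rhoSub p n hn (B.Gad (ZMod (p ^ n))) g.1 m = (Nat.card N : ZMod p) • m := by
      simp only [hm, Finset.sum_const, Finset.card_univ, Nat.card_eq_fintype_card]
      rw [Nat.cast_smul_eq_nsmul]
    rw [← e1]
    have e2 : ∀ g : N, rhoSub p n hn (B.Gad (ZMod (p ^ n))) g.1 m =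
        ∑ j : b.support, m (Sum.inl j) •
          rhoSub p n hn (B.Gad (ZMod (p ^ n))) g.1 (hv p b (j : ι)) := by
      intro g
      conv_lhs => rw [h3]
      rw [map_sum]
      simp only [map_smul]
    simp only [e2]
    rw [Finset.sum_comm]
    refine Finset.sum_eq_zero fun j _ => ?_
    rw [← Finset.smul_sum]
    have := hS j
    rw [finsum_eq_sum_of_fintype] at this
    rw [this, smul_zero]
  exact (smul_eq_zero.1 h4).resolve_left hNc

end K

end Level

end Pool.Agent.T2H67.Chev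

namespace Pool.Agent.T2H67.Chev

open Module Pool.Agent.T2H35.Chev TensorProduct

variable {ι V W : Type} [Fintype ι] [DecidableEq ι] [AddCommGroup V] [Module ℚ V]
  [AddCommGroup W] [Module ℚ W]

/-- **The group-level facts** -/
theorem exists_CG (P : RootPairing ι ℚ V W) [P.IsCrystallographic] [P.IsReduced]
    [P.IsRootSystem] (b : P.Base) {L : Type} [LieRing L] (B : ChevalleyBasis P b L)
    (p n : ℕ) [hpf : Fact p.Prime] (hn : 1 ≤ n) (hp : Fintype.card ι < p) (hp' : 60 < p) :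
    ∃ C : CG P b (ZMod (p ^ n)) (ZMod p) (redP p n hn) (B.Gad (ZMod (p ^ n)))
      (rhoSub p n hn (B.Gad (ZMod (p ^ n)))),
      ∀ i s, (C.x i s).1.1 = B.xMat (ZMod (p ^ n)) i s := by
  have hA : Good (ZMod (p ^ n)) := good_zmod p n hn hp'
  have hpn : 1 < p ^ n := Nat.one_lt_pow (by omega) hpf.out.one_lt
  have : Nontrivial (ZMod (p ^ n)) := ZMod.nontrivial_iff.2 (by omega)
  have : NeZero (p ^ n) := ⟨by omega⟩
  obtain ⟨τ, hτ1, hτ2⟩ := exists_tau p n hn
  have hq : ∀ c : ℤ, c ≠ 0 → |c| ≤ 24 →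
      redP p n hn (((τ ^ 2) ^ c : (ZMod (p ^ n))ˣ) : ZMod (p ^ n)) ≠ 1 := by
    intro c hc hc'
    have h1 : ∀ m : ℕ, 0 < m → m ≤ 24 →
        redP p n hn (((τ ^ 2) ^ m : (ZMod (p ^ n))ˣ) : ZMod (p ^ n)) ≠ 1 := by
      intro m hm hm'
      rw [← pow_mul]
      exact hτ2 _ (by omega) (by omega)
    rcases Int.natAbs_eq c with h | h
    · rw [h, zpow_natCast]
      refine h1 _ (Int.natAbs_pos.2 hc) ?_
      have : (c.natAbs : ℤ) ≤ 24 := by rw [Int.natCast_natAbs]; exact hc'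
      omega
    · rw [h, zpow_neg, zpow_natCast]
      intro h2
      refine h1 c.natAbs (Int.natAbs_pos.2 hc) ?_ ?_
      · have : (c.natAbs : ℤ) ≤ 24 := by rw [Int.natCast_natAbs]; exact hc'
        omega
      · have h3 : redP p n hn (((τ ^ 2) ^ c.natAbs : (ZMod (p ^ n))ˣ) : ZMod (p ^ n)) *
            redP p n hn ((((τ ^ 2) ^ c.natAbs)⁻¹ : (ZMod (p ^ n))ˣ) : ZMod (p ^ n)) = 1 := by
          rw [← map_mul, ← Units.val_mul, mul_inv_cancel, Units.val_one, map_one]
        rwa [h2, mul_one] at h3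
  have hfin : Finite (B.Gad (ZMod (p ^ n))) := by
    have : Finite (Matrix (b.support ⊕ ι) (b.support ⊕ ι) (ZMod (p ^ n))) := inferInstance
    have : Finite (GL (b.support ⊕ ι) (ZMod (p ^ n))) := inferInstance
    infer_instance
  have hodd : Even (p - 1) := by
    rcases hpf.out.eq_two_or_odd' with h | h
    · omega
    · exact Nat.Odd.sub_odd h odd_one
  obtain ⟨NG, hNG⟩ : ∃ NG : Subgroup (B.Gad (ZMod (p ^ n))),
      NG = ((bc B (ZMod (p ^ n))).NN hA (τ ^ 2)).comap (ff B (ZMod (p ^ n))) := ⟨_, rfl⟩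
  have hNGm : ∀ g ∈ NG, (bc B (ZMod (p ^ n))).mono (p - 1) (ff B (ZMod (p ^ n)) g) := by
    intro g hg
    rw [hNG, Subgroup.mem_comap] at hg
    exact (bc B (ZMod (p ^ n))).NN_mono hA hodd hτ1 hg
  have hcard : ((Nat.card NG : ℕ) : ZMod p) ≠ 0 := by
    rw [Ne, ZMod.natCast_eq_zero_iff]
    intro hdvd
    have : Finite NG := inferInstance
    obtain ⟨x, hx⟩ := exists_prime_orderOf_dvd_card' p hdvd
    have h1 : x ^ orderOf x = 1 := pow_orderOf_eq_one x
    have h1' : x.1 ^ orderOf x = 1 := by rw [← Subgroup.coe_pow, h1]; rfl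
    have h2 : ff B (ZMod (p ^ n)) x.1 = 1 := by
      refine (bc B (ZMod (p ^ n))).no_order_p (orderOf x) (hpf := by rw [hx]; exact hpf)
        (by rw [hx]; exact hp) (ff_LAut B _ hA x.1) (by rw [hx]; exact hNGm x.1 x.2) ?_
      rw [← map_pow, h1', map_one]
    have h3 : x.1 = 1 := ff_inj B _ (by rw [h2, map_one])
    have h4 : x = 1 := Subtype.ext h3
    rw [h4, orderOf_one] at hx
    have := hpf.out.one_lt
    omega
  have htm : ∀ e, tg B p n hA (τ ^ 2) e ∈ NG := by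
    intro e
    rw [hNG, Subgroup.mem_comap, ff_tg]
    exact Subgroup.subset_closure (Or.inl ⟨e, rfl⟩)
  have hnm : ∀ c, xg B _ hA c 1 * xg B _ hA (neg P c) (-1) * xg B _ hA c 1 ∈ NG := by
    intro c
    rw [hNG, Subgroup.mem_comap, ff_n]
    exact Subgroup.subset_closure (Or.inr ⟨c, rfl⟩)
  have h2 : (2 : ZMod p) ≠ 0 := by
    intro h
    have : ((2 : ℕ) : ZMod p) = 0 := by exact_mod_cast h
    rw [ZMod.natCast_eq_zero_iff] at this
    have := Nat.le_of_dvd (by norm_num) this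
    omega
  refine ⟨{
    x := xg B _ hA
    x_add := g_xadd B _ hA
    gen := gen_xg B _ hA
    Nc := Ncc B
    Nc_unit := ?_
    comm := g_comm B _ hA
    lead := g_lead B _ hA
    sep := g_sep B _ hA
    q := τ ^ 2
    q_ne := hq
    t := tg B p n hA (τ ^ 2)
    t_conj := ?_
    N := NG
    N_fin := inferInstance
    N_card := hcard
    t_mem := htm
    n_mem := hnm
    N_perm := ?_
    η := (bc B (ZMod (p ^ n))).eta hA
    η_pm := (bc B (ZMod (p ^ n))).eta_pm hA
    η_self := (bc B (ZMod (p ^ n))).eta_self hA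
    η_neg := (bc B (ZMod (p ^ n))).eta_neg hA
    n_conj := g_nconj B _ hA
    w_self := g_wself B _ hA
    w_conj := g_wconj B _ hA
    raise := k_raise B p n hn hA
    act1 := fun c i k s hk => k_act1 B p n hn hA c i k s hk
    act_cartan := k_act_cartan B p n hn hA
    hvec := hv p b
    hvec_cartan := fun c i => rfl
    hvec_self := k_hvec_self B p n
    act_opp := k_act_opp B p n hn hA
    n_cartan := k_n_cartan B p n hn hA
    n_e := k_n_e B p n hn hA
    t_act := k_t_act B p n hn hA τ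
    inv0 := k_inv0 B p n hn hA τ (hq 2 (by norm_num) (by norm_num)) NG inferInstance hnm hcard h2
    gauss := g_gauss B _ hA }, fun i s => xg_val B _ hA i s⟩
  · -- Nc_unit
    intro i j k hk
    have h1 := (Ncc_spec B hk).2
    have h2 := P.chainBotCoeff_add_chainTopCoeff_le_three (i := i) (j := j)
    refine hA _ ?_ ?_
    · intro h0
      rw [h0, abs_zero] at h1
      have : (0 : ℤ) ≤ P.chainBotCoeff i j := by positivity
      omega
    · rw [h1]
      have : (P.chainBotCoeff i j : ℤ) ≤ 3 := by exact_mod_cast (by omega)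
      omega
  · -- t_conj
    intro e i s
    exact g_conj B _ hA (by
      rw [ff_tg]; exact (bc B (ZMod (p ^ n))).tt_bs hA e τ (Sum.inr i)) s
  · -- N_perm
    intro g hg i
    obtain ⟨j, u, -, e⟩ := hNGm g hg i
    exact ⟨j, u, fun s => g_conj B _ hA e s⟩

end Pool.Agent.T2H67.Chev
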