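import Mathlib

/-!
# Truncated exponentials of nilpotent endomorphisms and derivations
-/

namespace Pool.Agent.T2H67.Chev

open Module Polynomial

variable {A : Type*} [CommRing A]

/-- All nonzero integers of absolute value at most 60 are invertible. -/
def Good (A : Type*) [CommRing A] : Prop := ∀ z : ℤ, z ≠ 0 → |z| ≤ 60 → IsUnit (z : A)

lemma Good.inv2 (h : Good A) : (2 : A) * Ring.inverse 2 = 1 := by
  have := h 2 (by norm_num) (by norm_num)
  exact Ring.mul_inverse_cancel _ (by simpa using this)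

lemma Good.inv6 (h : Good A) : (6 : A) * Ring.inverse 6 = 1 := by
  have := h 6 (by norm_num) (by norm_num)
  exact Ring.mul_inverse_cancel _ (by simpa using this)

lemma Good.inv3 (h : Good A) : (3 : A) * Ring.inverse 3 = 1 := by
  have := h 3 (by norm_num) (by norm_num)
  exact Ring.mul_inverse_cancel _ (by simpa using this)

lemma Good.inv24 (h : Good A) : (24 : A) * Ring.inverse 24 = 1 := by
  have := h 24 (by norm_num) (by norm_num)
  exact Ring.mul_inverse_cancel _ (by simpa using this)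

lemma Good.cancel (h : Good A) {T : Type*} [AddCommGroup T] [Module A T] (z : ℤ) (hz : z ≠ 0)
    (hz' : |z| ≤ 60) {v : T} (hv : (z : A) • v = 0) : v = 0 := by
  obtain ⟨u, hu⟩ := h z hz hz'
  rw [← hu] at hv
  simpa using congrArg (fun w => ((u⁻¹ : Aˣ) : A) • w) hv

section Ex

variable {S : Type*} [Ring S] [Algebra A S]

/-- `exp (s D)` truncated after the cubic term. -/
noncomputable def ex (D : S) (s : A) : S :=
  1 + s • D + (s ^ 2 * Ring.inverse 2) • D ^ 2 + (s ^ 3 * Ring.inverse 6) • D ^ 3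

/-- logarithm, truncated. -/
noncomputable def lg (A : Type*) [CommRing A] {S : Type*} [Ring S] [Algebra A S] (Y : S) : S :=
  (Y - 1) - (Ring.inverse 2 : A) • (Y - 1) ^ 2 + (Ring.inverse 3 : A) • (Y - 1) ^ 3

@[simp] lemma ex_zero (D : S) : ex D (0 : A) = 1 := by simp [ex]

lemma ex_add (h : Good A) {D : S} (hD : D ^ 4 = 0) (s t : A) :
    ex D (s + t) = ex D s * ex D t := by
  have h2 := h.inv2
  have h6 := h.inv6
  set a := (Ring.inverse 2 : A)
  set c := (Ring.inverse 6 : A)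
  have key : ∀ s : A, ex D s =
      aeval D (1 + C s * X + C (s ^ 2 * a) * X ^ 2 + C (s ^ 3 * c) * X ^ 3 : A[X]) := by
    intro s
    simp [ex, a, c, Algebra.smul_def]
  rw [key, key, key, ← map_mul]
  have hac : a = 3 * c := by linear_combination (-a) * h6 + 3 * c * h2
  have : (1 + C s * X + C (s ^ 2 * a) * X ^ 2 + C (s ^ 3 * c) * X ^ 3 : A[X]) *
      (1 + C t * X + C (t ^ 2 * a) * X ^ 2 + C (t ^ 3 * c) * X ^ 3) =
      (1 + C (s + t) * X + C ((s + t) ^ 2 * a) * X ^ 2 + C ((s + t) ^ 3 * c) * X ^ 3) +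
      X ^ 4 * (C (s * t ^ 3 * c + s ^ 2 * t ^ 2 * a ^ 2 + s ^ 3 * t * c)
        + C (s ^ 2 * t ^ 3 * a * c + s ^ 3 * t ^ 2 * a * c) * X
        + C (s ^ 3 * t ^ 3 * c ^ 2) * X ^ 2) := by
    have h2' : (2 : A[X]) * C a = 1 := by
      rw [← map_ofNat C 2, ← C_mul, h2, C_1]
    have hac' : C a = 3 * C c := by rw [hac, C_mul, map_ofNat C 3]
    simp only [C_add, C_mul, C_pow]
    linear_combination (-(C s * C t * X ^ 2)) * h2' +
      (C s ^ 2 * C t * X ^ 3 + C s * C t ^ 2 * X ^ 3) * hac'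
  rw [this, map_add, map_mul]
  simp [hD]

lemma ex_neg_mul (h : Good A) {D : S} (hD : D ^ 4 = 0) (s : A) : ex D s * ex D (-s) = 1 := by
  rw [← ex_add h hD]; simp

lemma lg_ex (h : Good A) {D : S} (hD : D ^ 4 = 0) (s : A) : lg A (ex D s) = s • D := by
  have h2 := h.inv2
  have h6 := h.inv6
  have h3 := h.inv3
  set a := (Ring.inverse 2 : A) with ha
  set c := (Ring.inverse 6 : A) with hc
  set d := (Ring.inverse 3 : A) with hd
  have hac : a = 3 * c := by linear_combination (-a) * h6 + 3 * c * h2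
  have hdc : d = 2 * c := by linear_combination (-d) * h6 + 2 * c * h3
  have key : ex D s =
      aeval D (1 + C s * X + C (s ^ 2 * a) * X ^ 2 + C (s ^ 3 * c) * X ^ 3 : A[X]) := by
    simp [ex, a, c, Algebra.smul_def]
  have hY : ex D s - 1 = aeval D (C s * X + C (s ^ 2 * a) * X ^ 2 + C (s ^ 3 * c) * X ^ 3 : A[X]) := by
    rw [key]; simp
    abel
  rw [lg, hY, ← ha, ← hd, ← map_pow, ← map_pow, ← map_smul, ← map_smul, ← map_sub, ← map_add]
  set Z : A[X] := C s * X + C (s ^ 2 * a) * X ^ 2 + C (s ^ 3 * c) * X ^ 3 with hZ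
  have : ∃ q : A[X], Z - a • Z ^ 2 + d • Z ^ 3 = C s * X + X ^ 4 * q := by
    have h2' : (2 : A[X]) * C a = 1 := by
      rw [← map_ofNat C 2, ← C_mul, h2, C_1]
    have hac' : C a = 3 * C c := by rw [hac, C_mul, map_ofNat C 3]
    have hdc' : C d = 2 * C c := by rw [hdc, C_mul, map_ofNat C 2]
    refine ⟨- C a * (C (s ^ 2 * a) ^ 2 + 2 * C s * C (s ^ 3 * c) + 2 * C (s ^ 2 * a) * C (s ^ 3 * c) * X
      + C (s ^ 3 * c) ^ 2 * X ^ 2) + C d * (3 * C s ^ 2 * C (s ^ 2 * a)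
      + (3 * C s ^ 2 * C (s ^ 3 * c) + 3 * C s * C (s ^ 2 * a) ^ 2) * X
      + (C (s ^ 2 * a) ^ 3 + 6 * C s * C (s ^ 2 * a) * C (s ^ 3 * c)) * X ^ 2
      + (3 * C s * C (s ^ 3 * c) ^ 2 + 3 * C (s ^ 2 * a) ^ 2 * C (s ^ 3 * c)) * X ^ 3
      + 3 * C (s ^ 2 * a) * C (s ^ 3 * c) ^ 2 * X ^ 4 + C (s ^ 3 * c) ^ 3 * X ^ 5), ?_⟩
    rw [hZ, smul_eq_C_mul, smul_eq_C_mul]
    simp only [C_mul, C_pow]
    linear_combination (-(C s ^ 3 * X ^ 3 * C a)) * h2' - (C s ^ 3 * X ^ 3) * hac' +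
      (C s ^ 3 * X ^ 3) * hdc'
  obtain ⟨q, hq⟩ := this
  rw [hq]
  simp [hD, Algebra.smul_def]

lemma lg_conj (g : Sˣ) (Y : S) : lg A (g * Y * (g⁻¹ : Sˣ)) = g * lg A Y * (g⁻¹ : Sˣ) := by
  have h1 : (g : S) * Y * (g⁻¹ : Sˣ) - 1 = g * (Y - 1) * (g⁻¹ : Sˣ) := by
    simp [mul_sub, sub_mul]
  have h2 : ∀ n : ℕ, ((g : S) * (Y - 1) * (g⁻¹ : Sˣ)) ^ n = g * (Y - 1) ^ n * (g⁻¹ : Sˣ) := by
    intro n
    induction n with
    | zero => simp
    | succ n ih => rw [pow_succ, ih, pow_succ]; simp [mul_assoc]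
  rw [lg, h1, h2, h2, lg]
  simp only [mul_add, add_mul, mul_sub, sub_mul, mul_smul_comm, smul_mul_assoc]

lemma ex_conj (g : Sˣ) (D : S) (s : A) :
    ex (g * D * (g⁻¹ : Sˣ)) s = g * ex D s * (g⁻¹ : Sˣ) := by
  have h2 : ∀ n : ℕ, ((g : S) * D * (g⁻¹ : Sˣ)) ^ n = g * D ^ n * (g⁻¹ : Sˣ) := by
    intro n
    induction n with
    | zero => simp
    | succ n ih => rw [pow_succ, ih, pow_succ]; simp [mul_assoc]
  simp only [ex, h2]
  simp only [mul_add, add_mul, mul_smul_comm, smul_mul_assoc, mul_one, Units.mul_inv]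

lemma ex_smul (D : S) (u s : A) : ex (u • D) s = ex D (u * s) := by
  simp only [ex, _root_.smul_pow, smul_smul]
  rw [show s * u = u * s by ring,
    show s ^ 2 * Ring.inverse 2 * u ^ 2 = (u * s) ^ 2 * Ring.inverse 2 by ring,
    show s ^ 3 * Ring.inverse 6 * u ^ 3 = (u * s) ^ 3 * Ring.inverse 6 by ring]

end Ex

section Lie

variable {T : Type*} [LieRing T] [LieAlgebra A T]

lemma ex_apply (D : Module.End A T) (s : A) (v : T) : ex D s v =
    v + s • D v + (s ^ 2 * Ring.inverse 2) • D (D v) + (s ^ 3 * Ring.inverse 6) • D (D (D v)) := by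
  simp [ex, pow_succ, Module.End.mul_apply]

lemma ex_lie (h : Good A) {D : Module.End A T} (hD : D ^ 4 = 0)
    (hder : ∀ u v, D ⁅u, v⁆ = ⁅D u, v⁆ + ⁅u, D v⁆) (s : A) (u v : T) :
    ex D s ⁅u, v⁆ = ⁅ex D s u, ex D s v⁆ := by
  have h24 := h.inv24
  set e := (Ring.inverse 24 : A)
  have ha : (Ring.inverse 2 : A) = 12 * e := by
    linear_combination (-(Ring.inverse 2 : A)) * h24 + 12 * e * h.inv2
  have hc : (Ring.inverse 6 : A) = 4 * e := by
    linear_combination (-(Ring.inverse 6 : A)) * h24 + 4 * e * h.inv6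
  have hD4 : ∀ w, D (D (D (D w))) = 0 := by
    intro w
    have := congrArg (fun F : Module.End A T => F w) hD
    simpa [pow_succ, Module.End.mul_apply] using this
  rw [ex_apply, ex_apply, ex_apply, ha, hc]
  have e4 := hD4 ⁅u, v⁆
  have e5 : D (D (D (D (D ⁅u, v⁆)))) = 0 := by rw [hD4]
  have e6 : D (D (D (D (D (D ⁅u, v⁆))))) = 0 := by rw [hD4]
  simp only [hder, map_add, hD4, zero_lie, lie_zero, zero_add, add_zero] at e4 e5 e6 ⊢
  simp only [add_lie, lie_add, smul_lie, lie_smul]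
  have h33 : ⁅D (D (D u)), D (D (D v))⁆ = 0 := by
    refine h.cancel 20 (by norm_num) (by norm_num) ?_
    rw [← e6]; push_cast; module
  have h32 : ⁅D (D (D u)), D (D v)⁆ + ⁅D (D u), D (D (D v))⁆ = 0 := by
    refine h.cancel 10 (by norm_num) (by norm_num) ?_
    rw [← e5]; push_cast; module
  have e4' : (4 : A) • ⁅D (D (D u)), D v⁆ + (6 : A) • ⁅D (D u), D (D v)⁆
      + (4 : A) • ⁅D u, D (D (D v))⁆ = 0 := by
    rw [← e4]; module
  have k : ∀ w : T, (24 * e - 1) • w = 0 := by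
    intro w; rw [h24, sub_self, zero_smul]
  linear_combination (norm := module) (s ^ 2) • (k ⁅D u, D v⁆) - (e * s ^ 4) • e4'
    - (6 * e * s ^ 4) • (k ⁅D (D u), D (D v)⁆) - (48 * e ^ 2 * s ^ 5) • h32
    - (16 * e ^ 2 * s ^ 6) • h33

end Lie

end Pool.Agent.T2H67.Chev
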