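import Pool.Agent.T2H35.Chev.Comb
import Pool.Agent.T2H67.Chev.Ex

/-!
# Lie algebras with a Chevalley basis over a commutative ring: weight calculus
-/

namespace Pool.Agent.T2H67.Chev

open Module Pool.Agent.T2H35.Chev

set_option linter.unusedSectionVars false
set_option linter.unusedVariables false

variable {ι V W : Type} [Fintype ι] [DecidableEq ι] [AddCommGroup V] [Module ℚ V]
  [AddCommGroup W] [Module ℚ W]

/-- A Lie algebra over `A` with a Chevalley basis. -/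
structure CLie (P : RootPairing ι ℚ V W) [P.IsCrystallographic] (b : P.Base) (A T : Type)
    [CommRing A] [LieRing T] [LieAlgebra A T] where
  bs : Basis (b.support ⊕ ι) A T
  crd : ι → b.support → ℤ
  crd_spec : ∀ i, P.coroot i = ∑ j, crd i j • P.coroot j
  Nc : ι → ι → ℤ
  hh : ∀ j k, ⁅bs (Sum.inl j), bs (Sum.inl k)⁆ = 0
  he : ∀ (j : b.support) (i : ι), ⁅bs (Sum.inl j), bs (Sum.inr i)⁆ =
    (P.pairingIn ℤ i j : A) • bs (Sum.inr i)
  e_neg : ∀ i, ⁅bs (Sum.inr i), bs (Sum.inr (neg P i))⁆ = ∑ j, (crd i j : A) • bs (Sum.inl j)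
  ee : ∀ i j k, P.root k = P.root i + P.root j →
    ⁅bs (Sum.inr i), bs (Sum.inr j)⁆ = (Nc i j : A) • bs (Sum.inr k)
  ee0 : ∀ i j, P.root i + P.root j ≠ 0 → P.root i + P.root j ∉ Set.range P.root →
    ⁅bs (Sum.inr i), bs (Sum.inr j)⁆ = 0
  Nc_abs : ∀ i j k, P.root k = P.root i + P.root j → |Nc i j| = P.chainBotCoeff i j + 1

variable {P : RootPairing ι ℚ V W} [P.IsCrystallographic] [P.IsReduced] {b : P.Base}
    {A T : Type} [CommRing A] [LieRing T] [LieAlgebra A T] (C : CLie P b A T)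

namespace CLie

/-- root vectors -/
noncomputable abbrev E (i : ι) : T := C.bs (Sum.inr i)

/-- the elements `h_i` -/
noncomputable def H (i : ι) : T := ∑ j, (C.crd i j : A) • C.bs (Sum.inl j)

/-- vectors supported in `S` -/
noncomputable def Sp (S : Set (b.support ⊕ ι)) : Submodule A T where
  carrier := {v | ∀ k, k ∉ S → C.bs.repr v k = 0}
  add_mem' := by
    intro u v hu hv k hk
    simp [hu k hk, hv k hk]
  zero_mem' := by intro k _; simp
  smul_mem' := by
    intro c v hv k hk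
    simp [hv k hk]

lemma mem_Sp {S : Set (b.support ⊕ ι)} {v : T} :
    v ∈ C.Sp S ↔ ∀ k, k ∉ S → C.bs.repr v k = 0 := Iff.rfl

lemma bs_mem {S : Set (b.support ⊕ ι)} {k : b.support ⊕ ι} (hk : k ∈ S) : C.bs k ∈ C.Sp S := by
  intro k' hk'
  rw [Basis.repr_self, Finsupp.single_apply, if_neg]
  rintro rfl; exact hk' hk

lemma Sp_le {S : Set (b.support ⊕ ι)} {M : Submodule A T} (h : ∀ k ∈ S, C.bs k ∈ M) :
    C.Sp S ≤ M := by
  intro v hv
  rw [← C.bs.sum_repr v]
  refine Submodule.sum_mem _ fun k _ => ?_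
  by_cases hk : k ∈ S
  · exact M.smul_mem _ (h k hk)
  · rw [hv k hk, zero_smul]; exact M.zero_mem

lemma Sp_mono {S S' : Set (b.support ⊕ ι)} (h : S ⊆ S') : C.Sp S ≤ C.Sp S' :=
  C.Sp_le fun _ hk => C.bs_mem (h hk)

lemma Sp_univ (v : T) : v ∈ C.Sp Set.univ := fun k hk => absurd (Set.mem_univ k) hk

lemma Sp_empty {S : Set (b.support ⊕ ι)} (hS : ∀ k, k ∉ S) {v : T} (hv : v ∈ C.Sp S) : v = 0 := by
  apply C.bs.repr.injective
  ext k
  simpa using hv k (hS k)

lemma map_Sp {S : Set (b.support ⊕ ι)} {M : Submodule A T} (F : T →ₗ[A] T)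
    (h : ∀ k ∈ S, F (C.bs k) ∈ M) {v : T} (hv : v ∈ C.Sp S) : F v ∈ M := by
  have : C.Sp S ≤ M.comap F := C.Sp_le fun k hk => h k hk
  exact this hv

/-- sums of weights -/
def addS (S S' : Set (b.support ⊕ ι)) : Set (b.support ⊕ ι) :=
  {k | ∃ k₁ ∈ S, ∃ k₂ ∈ S', wt P b k = wt P b k₁ + wt P b k₂}

lemma sum_inl_mem (S : Set (b.support ⊕ ι)) (c : b.support → A) (h : ∀ j, Sum.inl j ∈ S) :
    ∑ j, c j • C.bs (Sum.inl j) ∈ C.Sp S :=
  Submodule.sum_mem _ fun j _ => Submodule.smul_mem _ _ (C.bs_mem (h j))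

lemma eq_neg_of_add_eq_zero {i j : ι} (h : P.root i + P.root j = 0) : j = neg P i := by
  apply P.root.injective
  rw [root_neg]
  exact eq_neg_of_add_eq_zero_right h

lemma bs_lie_mem (k₁ k₂ : b.support ⊕ ι) :
    ⁅C.bs k₁, C.bs k₂⁆ ∈ C.Sp {k | wt P b k = wt P b k₁ + wt P b k₂} := by
  rcases k₁ with j | i
  · rcases k₂ with j' | i'
    · rw [C.hh]; exact Submodule.zero_mem _
    · rw [C.he]
      exact Submodule.smul_mem _ _ (C.bs_mem (by simp [wt]))
  · rcases k₂ with j' | i'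
    · rw [← lie_skew, C.he]
      exact Submodule.neg_mem _ (Submodule.smul_mem _ _ (C.bs_mem (by simp [wt])))
    · by_cases h0 : P.root i + P.root i' = 0
      · obtain rfl := eq_neg_of_add_eq_zero h0
        rw [C.e_neg]
        exact C.sum_inl_mem _ _ fun j => by simp [wt]
      · by_cases h1 : P.root i + P.root i' ∈ Set.range P.root
        · obtain ⟨k, hk⟩ := h1
          rw [C.ee i i' k hk]
          exact Submodule.smul_mem _ _ (C.bs_mem (by simp [wt, hk]))
        · rw [C.ee0 i i' h0 h1]; exact Submodule.zero_mem _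

lemma lie_mem {S S' : Set (b.support ⊕ ι)} {u v : T} (hu : u ∈ C.Sp S) (hv : v ∈ C.Sp S') :
    ⁅u, v⁆ ∈ C.Sp (addS S S') := by
  have h1 : ∀ k ∈ S, ⁅C.bs k, v⁆ ∈ C.Sp (addS S S') := by
    intro k hk
    refine C.map_Sp (LieAlgebra.ad A T (C.bs k)) (fun k' hk' => ?_) hv
    rw [LieAlgebra.ad_apply]
    refine C.Sp_mono ?_ (C.bs_lie_mem k k')
    intro l hl
    exact ⟨k, hk, k', hk', hl⟩
  have h2 := C.map_Sp (M := C.Sp (addS S S')) (LieAlgebra.ad A T v) (fun k hk => ?_) hu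
  · rw [LieAlgebra.ad_apply] at h2
    rw [← lie_skew]
    exact Submodule.neg_mem _ h2
  · rw [LieAlgebra.ad_apply, ← lie_skew]
    exact Submodule.neg_mem _ (h1 k hk)

/-- the Cartan part -/
def cart (P : RootPairing ι ℚ V W) (b : P.Base) : Set (b.support ⊕ ι) := {k | ∃ j, k = Sum.inl j}

noncomputable abbrev Car : Submodule A T := C.Sp (cart P b)

lemma H_mem (i : ι) : C.H i ∈ C.Car := C.sum_inl_mem _ _ fun j => ⟨j, rfl⟩

lemma EE_neg (i : ι) : ⁅C.E i, C.E (neg P i)⁆ = C.H i := C.e_neg i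

/-- the value of the root `i` on the Cartan part -/
noncomputable def rt (i : ι) : T →ₗ[A] A :=
  ∑ j : b.support, (P.pairingIn ℤ i j : A) • (C.bs.coord (Sum.inl j))

lemma rt_apply (i : ι) (v : T) : C.rt i v = ∑ j : b.support, (P.pairingIn ℤ i j : A) *
    C.bs.repr v (Sum.inl j) := by
  simp [rt]

lemma pairing_crd (c i : ι) :
    P.pairingIn ℤ c i = ∑ j : b.support, P.pairingIn ℤ c j * C.crd i j := by
  have h : (P.pairing c i : ℚ) = ∑ j : b.support, P.pairing c j * C.crd i j := by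
    rw [← P.root_coroot_eq_pairing, C.crd_spec i, map_sum]
    refine Finset.sum_congr rfl fun j _ => ?_
    rw [map_zsmul, P.root_coroot_eq_pairing, zsmul_eq_mul, mul_comm]
  simp only [pairing_eq_cast] at h
  exact_mod_cast h

lemma rt_H (c i : ι) : C.rt c (C.H i) = (P.pairingIn ℤ c i : A) := by
  rw [rt_apply, C.pairing_crd c i]
  push_cast
  refine Finset.sum_congr rfl fun j _ => ?_
  congr 1
  simp [H, Finsupp.single_apply]

lemma lie_bs_car {h : T} (hh : h ∈ C.Car) (i : ι) : ⁅h, C.E i⁆ = C.rt i h • C.E i := by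
  have key : ∀ v ∈ C.Car, v ∈ LinearMap.ker
      ((LieAlgebra.ad A T (C.E i)) + (C.rt i).smulRight (C.E i)) := by
    intro v hv
    refine C.Sp_le ?_ hv
    rintro k ⟨j, rfl⟩
    rw [LinearMap.mem_ker, LinearMap.add_apply, LieAlgebra.ad_apply, ← lie_skew, C.he]
    simp [rt_apply, Finsupp.single_apply]
  have := key h hh
  rw [LinearMap.mem_ker, LinearMap.add_apply, LieAlgebra.ad_apply, ← lie_skew] at this
  rw [LinearMap.smulRight_apply] at this
  rw [← sub_eq_zero, ← neg_eq_zero, neg_sub, sub_eq_neg_add]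
  exact this

lemma car_comm {h h' : T} (hh : h ∈ C.Car) (hh' : h' ∈ C.Car) : ⁅h, h'⁆ = 0 := by
  have h1 : ∀ j : b.support, ⁅C.bs (Sum.inl j), h'⁆ = 0 := by
    intro j
    have : C.Car ≤ LinearMap.ker (LieAlgebra.ad A T (C.bs (Sum.inl j))) := by
      refine C.Sp_le ?_
      rintro k ⟨j', rfl⟩
      rw [LinearMap.mem_ker, LieAlgebra.ad_apply, C.hh]
    exact this hh'
  have : C.Car ≤ LinearMap.ker (LieAlgebra.ad A T h') := by
    refine C.Sp_le ?_
    rintro k ⟨j, rfl⟩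
    rw [LinearMap.mem_ker, LieAlgebra.ad_apply, ← lie_skew, h1, neg_zero]
  have := this hh
  rw [LinearMap.mem_ker, LieAlgebra.ad_apply, ← lie_skew, neg_eq_zero] at this
  exact this

/-- `ad e_i` -/
noncomputable abbrev D (i : ι) : Module.End A T := LieAlgebra.ad A T (C.E i)

lemma D_der (i : ι) (u v : T) : C.D i ⁅u, v⁆ = ⁅C.D i u, v⁆ + ⁅u, C.D i v⁆ := by
  simp [LieAlgebra.ad_apply]

lemma D_car (c : ι) {h : T} (hh : h ∈ C.Car) : C.D c h = -(C.rt c h • C.E c) := by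
  rw [LieAlgebra.ad_apply, ← lie_skew, C.lie_bs_car hh]

lemma D_self (c : ι) : C.D c (C.E c) = 0 := by rw [LieAlgebra.ad_apply, lie_self]

lemma D_neg (c : ι) : C.D c (C.E (neg P c)) = C.H c := C.e_neg c

/-- roots of the form `k + a c` -/
lemma D_pow_mem (c : ι) (a : ℕ) {S : Set (b.support ⊕ ι)} {v : T} (hv : v ∈ C.Sp S) :
    (C.D c ^ a) v ∈ C.Sp {k | ∃ k' ∈ S, wt P b k = wt P b k' + a • P.root c} := by
  induction a with
  | zero =>
    simp only [pow_zero, Module.End.one_apply, zero_smul, add_zero]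
    exact C.Sp_mono (S := S) (fun k hk => by exact ⟨k, hk, rfl⟩) hv
  | succ a ih =>
    rw [pow_succ', Module.End.mul_apply, LieAlgebra.ad_apply]
    have h1 : C.E c ∈ C.Sp {Sum.inr c} := C.bs_mem rfl
    refine C.Sp_mono ?_ (C.lie_mem h1 ih)
    rintro k ⟨k₁, hk₁, k₂, ⟨k', hk', hk2⟩, h⟩
    refine ⟨k', hk', ?_⟩
    rw [h, hk2, Set.mem_singleton_iff.1 hk₁]
    simp only [wt, Sum.elim_inr]
    module

end CLie

end Pool.Agent.T2H67.Chev
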