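import Pool.Agent.T2H67.Chev.Alg

/-!
# Root elements as automorphisms
-/

namespace Pool.Agent.T2H67.Chev

open Module Pool.Agent.T2H35.Chev

set_option linter.unusedSectionVars false
set_option linter.unusedVariables false

variable {ι V W : Type} [Fintype ι] [DecidableEq ι] [AddCommGroup V] [Module ℚ V]
  [AddCommGroup W] [Module ℚ W]
variable {P : RootPairing ι ℚ V W} [P.IsCrystallographic] [P.IsReduced] {b : P.Base}
    {A T : Type} [CommRing A] [LieRing T] [LieAlgebra A T] (C : CLie P b A T)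

/-- Lie automorphisms -/
def LAut (A T : Type) [CommRing A] [LieRing T] [LieAlgebra A T] : Subgroup (Module.End A T)ˣ where
  carrier := {g | ∀ u v : T, g.val ⁅u, v⁆ = ⁅g.val u, g.val v⁆}
  one_mem' := by intro u v; simp
  mul_mem' := by
    intro g h hg hh u v
    rw [Units.val_mul, Module.End.mul_apply, Module.End.mul_apply, Module.End.mul_apply, hh, hg]
  inv_mem' := by
    intro g hg u v
    have hi : ∀ w, g⁻¹.val (g.val w) = w := fun w => by
      rw [← Module.End.mul_apply, Units.inv_mul, Module.End.one_apply]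
    have hi' : ∀ w, g.val (g⁻¹.val w) = w := fun w => by
      rw [← Module.End.mul_apply, Units.mul_inv, Module.End.one_apply]
    conv_lhs => rw [← hi' u, ← hi' v, ← hg, hi]

lemma mul_app (g h : (Module.End A T)ˣ) (v : T) : (g * h).val v = g.val (h.val v) := rfl

lemma inv_app (g : (Module.End A T)ˣ) (v : T) : g⁻¹.val (g.val v) = v := by
  rw [← Module.End.mul_apply, Units.inv_mul, Module.End.one_apply]

lemma app_inv (g : (Module.End A T)ˣ) (v : T) : g.val (g⁻¹.val v) = v := by
  rw [← Module.End.mul_apply, Units.mul_inv, Module.End.one_apply]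

lemma LAut_lie {g : (Module.End A T)ˣ} (hg : g ∈ LAut A T) (u v : T) :
    g.val ⁅u, v⁆ = ⁅g.val u, g.val v⁆ := hg u v

namespace CLie

lemma rt_self_H (c : ι) : C.rt c (C.H c) = 2 := by
  rw [C.rt_H, P.pairingIn_same]; norm_num

lemma D_H (c : ι) : C.D c (C.H c) = -((2 : A) • C.E c) := by
  rw [C.D_car c (C.H_mem c), C.rt_self_H]

lemma wt_ne (i : ι) (k : b.support ⊕ ι) (c : ι) (n : ℕ) (hn : 4 ≤ n) (h1 : c ≠ i)
    (h2 : P.root c ≠ - P.root i) : wt P b k ≠ P.root i + n • P.root c := by
  intro hk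
  have hl := RootPairing.IsReduced.linearIndependent P h1 h2
  rcases k with j | m
  · simp only [wt, Sum.elim_inl] at hk
    have := (LinearIndependent.pair_iff.1 hl) (n : ℚ) 1 (by
      rw [one_smul, Nat.cast_smul_eq_nsmul, add_comm]; exact hk.symm)
    exact one_ne_zero this.2
  · simp only [wt, Sum.elim_inr] at hk
    have h3 : P.root i + n • P.root c ∈ Set.range P.root := ⟨m, hk⟩
    rw [P.root_add_nsmul_mem_range_iff_le_chainTopCoeff hl] at h3
    have := P.chainBotCoeff_add_chainTopCoeff_le_three (i := c) (j := i)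
    omega

lemma D_pow_four (c : ι) : C.D c ^ 4 = 0 := by
  refine C.bs.ext fun k => ?_
  rw [LinearMap.zero_apply]
  have e4 : ∀ v, (C.D c ^ 4) v = C.D c (C.D c (C.D c (C.D c v))) := by
    intro v
    simp [pow_succ, Module.End.mul_apply]
  rcases k with j | i
  · rw [e4, C.D_car c (C.bs_mem ⟨j, rfl⟩)]
    simp only [map_neg, map_smul, C.D_self, smul_zero, neg_zero, map_zero]
  · by_cases h1 : c = i
    · subst h1
      rw [e4, C.D_self]; simp only [map_zero]
    · by_cases h2 : P.root c = - P.root i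
      · have : i = neg P c := by
          apply P.root.injective
          rw [root_neg, h2, neg_neg]
        subst this
        rw [e4, C.D_neg, C.D_H]
        simp only [map_neg, map_smul, C.D_self, smul_zero, neg_zero, map_zero]
      · refine C.Sp_empty ?_ (C.D_pow_mem c 4 (C.bs_mem (S := {Sum.inr i}) rfl))
        rintro k ⟨k', hk', hk⟩
        rw [Set.mem_singleton_iff.1 hk'] at hk
        exact wt_ne i k c 4 le_rfl h1 h2 hk

variable (hA : Good A)

/-- root elements -/
noncomputable def X (c : ι) (s : A) : (Module.End A T)ˣ where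
  val := ex (C.D c) s
  inv := ex (C.D c) (-s)
  val_inv := ex_neg_mul hA (C.D_pow_four c) s
  inv_val := by simpa using ex_neg_mul hA (C.D_pow_four c) (-s)

lemma X_val (c : ι) (s : A) : (C.X hA c s).val = ex (C.D c) s := rfl

lemma X_add (c : ι) (s t : A) : C.X hA c (s + t) = C.X hA c s * C.X hA c t :=
  Units.ext (ex_add hA (C.D_pow_four c) s t)

lemma X_zero (c : ι) : C.X hA c 0 = 1 := Units.ext (ex_zero _)

lemma X_inv (c : ι) (s : A) : (C.X hA c s)⁻¹ = C.X hA c (-s) := by
  rw [inv_eq_iff_mul_eq_one, ← X_add, add_neg_cancel, X_zero]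

lemma X_mem (c : ι) (s : A) : C.X hA c s ∈ LAut A T := by
  intro u v
  exact ex_lie hA (C.D_pow_four c) (C.D_der c) s u v

lemma X_car (c : ι) (s : A) {h : T} (hh : h ∈ C.Car) :
    (C.X hA c s).val h = h - (s * C.rt c h) • C.E c := by
  rw [X_val, ex_apply, C.D_car c hh]
  simp only [map_neg, map_smul, C.D_self, smul_zero, neg_zero, map_zero, add_zero]
  rw [smul_neg, smul_smul, sub_eq_add_neg]

lemma X_self (c : ι) (s : A) : (C.X hA c s).val (C.E c) = C.E c := by
  rw [X_val, ex_apply, C.D_self]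
  simp only [map_zero, smul_zero, add_zero]

lemma X_neg (c : ι) (s : A) : (C.X hA c s).val (C.E (neg P c)) =
    C.E (neg P c) + s • C.H c - s ^ 2 • C.E c := by
  rw [X_val, ex_apply, C.D_neg, C.D_H]
  simp only [map_neg, map_smul, C.D_self, smul_zero, neg_zero, add_zero]
  rw [smul_neg, smul_smul, mul_assoc, mul_comm (Ring.inverse 2) 2, hA.inv2, mul_one,
    sub_eq_add_neg]

lemma X_sub_mem (c : ι) (s : A) {S : Set (b.support ⊕ ι)} {v : T} (hv : v ∈ C.Sp S) :
    (C.X hA c s).val v - v ∈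
      C.Sp {k | ∃ k' ∈ S, ∃ a : ℕ, 1 ≤ a ∧ wt P b k = wt P b k' + a • P.root c} := by
  have h : (C.X hA c s).val v - v = s • ((C.D c) ^ 1) v +
      (s ^ 2 * Ring.inverse 2) • ((C.D c) ^ 2) v +
      (s ^ 3 * Ring.inverse 6) • ((C.D c) ^ 3) v := by
    rw [X_val, ex]
    simp only [LinearMap.add_apply, LinearMap.smul_apply, Module.End.one_apply, pow_one]
    abel
  rw [h]
  refine Submodule.add_mem _ (Submodule.add_mem _ ?_ ?_) ?_
  · refine Submodule.smul_mem _ _ (C.Sp_mono ?_ (C.D_pow_mem c 1 hv))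
    rintro k ⟨k', hk', h⟩
    exact ⟨k', hk', 1, le_rfl, h⟩
  · refine Submodule.smul_mem _ _ (C.Sp_mono ?_ (C.D_pow_mem c 2 hv))
    rintro k ⟨k', hk', h⟩
    exact ⟨k', hk', 2, by norm_num, h⟩
  · refine Submodule.smul_mem _ _ (C.Sp_mono ?_ (C.D_pow_mem c 3 hv))
    rintro k ⟨k', hk', h⟩
    exact ⟨k', hk', 3, by norm_num, h⟩

/-- conjugation -/
lemma X_conj {g : (Module.End A T)ˣ} (hg : g ∈ LAut A T) {i j : ι} {u : A}
    (h : g.val (C.E i) = u • C.E j) (s : A) :
    g * C.X hA i s * g⁻¹ = C.X hA j (u * s) := by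
  apply Units.ext
  rw [Units.val_mul, Units.val_mul, X_val, X_val, ← ex_conj, ← ex_smul]
  congr 1
  ext v
  rw [Module.End.mul_apply, Module.End.mul_apply, LieAlgebra.ad_apply, hg, app_inv, h]
  simp [LieAlgebra.ad_apply]

lemma H_neg (c : ι) : C.H (neg P c) = - C.H c := by
  rw [← C.EE_neg (neg P c), neg_neg', ← lie_skew, C.EE_neg]

lemma rt_neg (c : ι) (h : T) : C.rt (neg P c) h = - C.rt c h := by
  rw [rt_apply, rt_apply, ← Finset.sum_neg_distrib]
  refine Finset.sum_congr rfl fun j _ => ?_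
  have : P.pairingIn ℤ (neg P c) j = - P.pairingIn ℤ c j := by
    simp [neg]
  rw [this]; push_cast; ring

/-- the elements `w_c(u)` -/
noncomputable def w (c : ι) (u : Aˣ) : (Module.End A T)ˣ :=
  C.X hA c u * C.X hA (neg P c) (-(u⁻¹ : Aˣ)) * C.X hA c u

lemma w_mem (c : ι) (u : Aˣ) : C.w hA c u ∈ LAut A T :=
  mul_mem (mul_mem (C.X_mem hA _ _) (C.X_mem hA _ _)) (C.X_mem hA _ _)

lemma X_neg' (c : ι) (s : A) : (C.X hA (neg P c) s).val (C.E c) =
    C.E c - s • C.H c - s ^ 2 • C.E (neg P c) := by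
  have := C.X_neg hA (neg P c) s
  rw [neg_neg'] at this
  rw [this, H_neg, smul_neg, sub_eq_add_neg (C.E c)]

lemma w_car (c : ι) (u : Aˣ) {h : T} (hh : h ∈ C.Car) :
    (C.w hA c u).val h = h - C.rt c h • C.H c := by
  have hu : (u : A) * (u⁻¹ : Aˣ) = 1 := Units.mul_inv u
  rw [w, mul_app, mul_app, C.X_car hA c _ hh]
  simp only [map_sub, map_smul]
  rw [C.X_car hA (neg P c) _ hh, C.X_neg', C.rt_neg]
  simp only [map_sub, map_smul]
  rw [C.X_car hA c _ hh, C.X_self, C.X_neg, C.X_car hA c _ (C.H_mem c), C.rt_self_H]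
  generalize C.rt c h = r
  generalize (u : A) = x at *
  generalize ((u⁻¹ : Aˣ) : A) = y at *
  have k : ∀ v : T, (x * y - 1) • v = 0 := by intro v; rw [hu, sub_self, zero_smul]
  linear_combination (norm := module) (x * r * (2 - x * y)) • k (C.E c) +
    (r * (x * y - 1)) • k (C.H c) + (y * r) • k (C.E (neg P c))

lemma w_self (c : ι) (u : Aˣ) :
    (C.w hA c u).val (C.E c) = (-((u⁻¹ : Aˣ) * (u⁻¹ : Aˣ) : A)) • C.E (neg P c) := by
  have hu : (u : A) * (u⁻¹ : Aˣ) = 1 := Units.mul_inv u
  rw [w, mul_app, mul_app, C.X_self, C.X_neg']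
  simp only [map_sub, map_smul]
  rw [C.X_self, C.X_neg, C.X_car hA c _ (C.H_mem c), C.rt_self_H]
  generalize (u : A) = x at *
  generalize ((u⁻¹ : Aˣ) : A) = y at *
  have k : ∀ v : T, (x * y - 1) • v = 0 := by intro v; rw [hu, sub_self, zero_smul]
  linear_combination (norm := module) (x * y - 1) • k (C.E c) - y • k (C.H c)

lemma w_neg (c : ι) (u : Aˣ) :
    (C.w hA c u).val (C.E (neg P c)) = (-((u : A) * u)) • C.E c := by
  have hu : (u : A) * (u⁻¹ : Aˣ) = 1 := Units.mul_inv u
  rw [w, mul_app, mul_app, C.X_neg]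
  simp only [map_sub, map_add, map_smul]
  rw [C.X_self, C.X_neg', C.X_car hA (neg P c) _ (C.H_mem c), C.rt_neg, C.rt_self_H]
  simp only [map_sub, map_smul]
  rw [C.X_self, C.X_neg, C.X_car hA c _ (C.H_mem c), C.rt_self_H]
  generalize (u : A) = x at *
  generalize ((u⁻¹ : Aˣ) : A) = y at *
  have k : ∀ v : T, (x * y - 1) • v = 0 := by intro v; rw [hu, sub_self, zero_smul]
  linear_combination (norm := module) (x * y - 1) • k (C.E (neg P c)) +
    (x * (x * y - 2)) • k (C.H c) + (2 * x ^ 2 - x ^ 2 * (x * y - 1)) • k (C.E c)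

section Wt

variable [P.IsRootSystem]

lemma lie_H_repr (d : ι) (v : T) (k : b.support ⊕ ι) :
    C.bs.repr ⁅C.H d, v⁆ k = (wtp P b k d : A) * C.bs.repr v k := by
  have key : (C.bs.coord k).comp (LieAlgebra.ad A T (C.H d)) =
      (wtp P b k d : A) • C.bs.coord k := by
    refine C.bs.ext fun l => ?_
    rw [LinearMap.comp_apply, LieAlgebra.ad_apply, LinearMap.smul_apply]
    rcases l with j | i
    · rw [C.car_comm (C.H_mem d) (C.bs_mem ⟨j, rfl⟩), map_zero]
      rcases k with j' | i'
      · simp [wtp]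
      · simp
    · rw [C.lie_bs_car (C.H_mem d), C.rt_H, map_smul]
      rcases k with j' | i'
      · simp [wtp]
      · by_cases h : i' = i
        · subst h; simp [wtp]
        · simp [Finsupp.single_apply, Ne.symm h]
  have := congrArg (fun F => F v) key
  simpa [LieAlgebra.ad_apply] using this

lemma exists_sep (i : ι) (k : b.support ⊕ ι) (h : k ≠ Sum.inr i) :
    ∃ d, wtp P b k d - P.pairingIn ℤ i d ≠ 0 ∧ |wtp P b k d - P.pairingIn ℤ i d| ≤ 60 := by
  have hb : ∀ d, |wtp P b k d - P.pairingIn ℤ i d| ≤ 60 := by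
    intro d
    have h1 := abs_wtp_le P b k d
    have h2 := abs_pairingIn_le P i d
    rw [abs_le] at *
    omega
  by_contra hcon
  push Not at hcon
  have hcon' : ∀ d, wtp P b k d - P.pairingIn ℤ i d = 0 := by
    intro d
    by_contra h0
    exact absurd (hb d) (not_le.2 (hcon d h0))
  rcases k with j | m
  · have := hcon' i
    simp [wtp, P.pairingIn_same] at this
  · apply h
    congr 1
    apply P.root.injective
    rw [← sub_eq_zero, P.eq_zero_iff_forall_coroot'_eq_zero]
    intro e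
    rw [map_sub, coroot'_root, coroot'_root]
    have := hcon' e
    simp only [wtp, Sum.elim_inr] at this
    exact_mod_cast this

/-- weight spaces of roots are one-dimensional -/
lemma wt_space (hA : Good A) (i : ι) (v : T)
    (h : ∀ d, ⁅C.H d, v⁆ = (P.pairingIn ℤ i d : A) • v) :
    v = C.bs.repr v (Sum.inr i) • C.E i := by
  apply C.bs.repr.injective
  ext k
  rw [map_smul, Finsupp.smul_apply, Basis.repr_self]
  by_cases hk : k = Sum.inr i
  · subst hk; simp
  · rw [Finsupp.single_apply, if_neg (Ne.symm hk), smul_zero]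
    obtain ⟨d, hd1, hd2⟩ := exists_sep i k hk
    have h1 := congrArg (fun w => C.bs.repr w k) (h d)
    simp only [lie_H_repr, map_smul, Finsupp.smul_apply, smul_eq_mul] at h1
    have h2 : ((wtp P b k d - P.pairingIn ℤ i d : ℤ) : A) • C.bs.repr v k = 0 := by
      rw [smul_eq_mul]; push_cast; linear_combination h1
    exact hA.cancel _ hd1 hd2 h2

lemma rt_reflection (c i : ι) (h : T) :
    C.rt (P.reflectionPerm c i) h = C.rt i h - (P.pairingIn ℤ i c : A) * C.rt c h := by
  simp only [rt_apply]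
  rw [Finset.mul_sum, ← Finset.sum_sub_distrib]
  refine Finset.sum_congr rfl fun j _ => ?_
  have h1 : P.pairingIn ℤ (P.reflectionPerm c i) j =
      P.pairingIn ℤ i j - P.pairingIn ℤ i c * P.pairingIn ℤ c j := by
    have : P.pairing (P.reflectionPerm c i) j =
      P.pairing i j - P.pairing i c * P.pairing c j := by
      rw [← P.root_coroot_eq_pairing, P.root_reflectionPerm, P.reflection_apply_root]
      simp only [map_sub, map_smul, LinearMap.sub_apply, LinearMap.smul_apply,
        P.root_coroot_eq_pairing, smul_eq_mul]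
    simp only [pairing_eq_cast] at this
    exact_mod_cast this
  rw [h1]; push_cast; ring

lemma w_E (c : ι) (u : Aˣ) (i : ι) :
    ∃ v : A, (C.w hA c u).val (C.E i) = v • C.E (P.reflectionPerm c i) := by
  refine ⟨_, C.wt_space hA _ _ fun d => ?_⟩
  set g := C.w hA c u with hg
  have hmem := C.w_mem hA c u
  set h' := C.H d - C.rt c (C.H d) • C.H c with hh'
  have h1 : h' ∈ C.Car := Submodule.sub_mem _ (C.H_mem d) (Submodule.smul_mem _ _ (C.H_mem c))
  have h2 : g.val h' = C.H d := by
    rw [hg, C.w_car hA c u h1, hh', map_sub, map_smul, C.rt_self_H]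
    module
  have h3 : g.val ⁅h', C.E i⁆ = ⁅g.val h', g.val (C.E i)⁆ := hmem _ _
  rw [h2, C.lie_bs_car h1, map_smul] at h3
  rw [← h3]
  congr 1
  rw [← C.rt_H, C.rt_reflection, hh', map_sub, map_smul, C.rt_H, C.rt_H, C.rt_H, smul_eq_mul]
  ring

end Wt

end CLie

end Pool.Agent.T2H67.Chev
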