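import Pool.Agent.T2H67.Chev.Mono
import Pool.Agent.T2H35.Chev.Rho

/-!
# Base change of a Chevalley basis; matrices
-/

namespace Pool.Agent.T2H67.Chev

open Module Pool.Agent.T2H35.Chev TensorProduct

set_option linter.unusedSectionVars false
set_option linter.unusedVariables false

variable {ι V W : Type} [Fintype ι] [DecidableEq ι] [AddCommGroup V] [Module ℚ V]
  [AddCommGroup W] [Module ℚ W]
variable {P : RootPairing ι ℚ V W} [P.IsCrystallographic] [P.IsReduced] [P.IsRootSystem]
    {b : P.Base} {L : Type} [LieRing L] (B : ChevalleyBasis P b L)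

lemma exists_crd (b : P.Base) (i : ι) :
    ∃ n : b.support → ℤ, P.coroot i = ∑ j, n j • P.coroot j := by
  obtain ⟨f, _, _, hf⟩ := b.flip.exists_root_eq_sum_int i
  refine ⟨fun j => f j, ?_⟩
  have hf' : P.coroot i = ∑ j ∈ b.support, f j • P.coroot j := hf
  rw [hf', ← Finset.sum_coe_sort]

/-- the coordinates of the coroots -/
noncomputable def crd (b : P.Base) (i : ι) : b.support → ℤ := (exists_crd b i).choose

lemma crd_spec' (b : P.Base) (i : ι) : P.coroot i = ∑ j, crd b i j • P.coroot j :=
  (exists_crd b i).choose_spec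

open Classical in
/-- structure constants -/
noncomputable def Ncc (i j : ι) : ℤ :=
  if h : ∃ k, P.root k = P.root i + P.root j then
    B.basis.repr ⁅B.basis (Sum.inr i), B.basis (Sum.inr j)⁆ (Sum.inr h.choose) else 0

lemma Ncc_spec {i j k : ι} (h : P.root k = P.root i + P.root j) :
    ⁅B.basis (Sum.inr i), B.basis (Sum.inr j)⁆ = Ncc B i j • B.basis (Sum.inr k) ∧
      |Ncc B i j| = P.chainBotCoeff i j + 1 := by
  have hex : ∃ k, P.root k = P.root i + P.root j := ⟨k, h⟩
  have hk : hex.choose = k := P.root.injective (by rw [hex.choose_spec, h])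
  obtain ⟨ε, hε, he⟩ := B.e_e i j k h
  have h1 : Ncc B i j = ε * ((P.chainBotCoeff i j : ℤ) + 1) := by
    rw [Ncc, dif_pos hex, hk, he]
    simp
  refine ⟨by rw [he, h1], ?_⟩
  rw [h1, abs_mul]
  rcases hε with rfl | rfl
  · rw [abs_one, one_mul, abs_of_nonneg (by positivity)]
  · rw [abs_neg, abs_one, one_mul, abs_of_nonneg (by positivity)]

/-- base change -/
noncomputable def bc (A : Type) [CommRing A] : CLie P b A (A ⊗[ℤ] L) where
  bs := B.basis.baseChange A
  crd := crd b
  crd_spec := crd_spec' b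
  Nc := Ncc B
  hh j k := by
    rw [Basis.baseChange_apply, Basis.baseChange_apply, LieAlgebra.ExtendScalars.bracket_tmul,
      B.h_h, TensorProduct.tmul_zero]
  he j i := by
    rw [Basis.baseChange_apply, Basis.baseChange_apply, LieAlgebra.ExtendScalars.bracket_tmul,
      B.h_e, mul_one, TensorProduct.tmul_smul, Int.cast_smul_eq_zsmul]
  e_neg i := by
    rw [Basis.baseChange_apply, Basis.baseChange_apply, LieAlgebra.ExtendScalars.bracket_tmul,
      B.e_neg i (crd b i) (crd_spec' b i), mul_one, TensorProduct.tmul_sum]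
    refine Finset.sum_congr rfl fun j _ => ?_
    rw [Basis.baseChange_apply, TensorProduct.tmul_smul, Int.cast_smul_eq_zsmul]
  ee i j k h := by
    rw [Basis.baseChange_apply, Basis.baseChange_apply, LieAlgebra.ExtendScalars.bracket_tmul,
      (Ncc_spec B h).1, mul_one, TensorProduct.tmul_smul, Basis.baseChange_apply,
      Int.cast_smul_eq_zsmul]
  ee0 i j h1 h2 := by
    rw [Basis.baseChange_apply, Basis.baseChange_apply, LieAlgebra.ExtendScalars.bracket_tmul,
      B.e_e_zero i j h1 h2, TensorProduct.tmul_zero]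
  Nc_abs i j k h := (Ncc_spec B h).2

/-- matrices -/
noncomputable def mat (A : Type) [CommRing A] :
    Module.End A (A ⊗[ℤ] L) ≃ₐ[A] Matrix (b.support ⊕ ι) (b.support ⊕ ι) A :=
  LinearMap.toMatrixAlgEquiv (bc B A).bs

lemma mat_D (A : Type) [CommRing A] (i : ι) :
    mat B A ((bc B A).D i) = (B.adE i).map (Int.cast : ℤ → A) := by
  ext d a
  rw [mat, LinearMap.toMatrixAlgEquiv_apply, LieAlgebra.ad_apply]
  change ((B.basis.baseChange A).repr ⁅(B.basis.baseChange A) (Sum.inr i),
    (B.basis.baseChange A) a⁆) d = _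
  rw [Basis.baseChange_apply, Basis.baseChange_apply, LieAlgebra.ExtendScalars.bracket_tmul,
    mul_one, Basis.baseChange_repr_tmul]
  simp [ChevalleyBasis.adE, Matrix.map_apply]

lemma mat_ex (A : Type) [CommRing A] (i : ι) (s : A) :
    mat B A (ex ((bc B A).D i) s) = B.xMat A i s := by
  rw [ex, ChevalleyBasis.xMat, ← mat_D]
  simp only [map_add, map_one, map_smul, map_pow]

/-- the isomorphism of the general linear groups -/
noncomputable def Phi (A : Type) [CommRing A] :
    (Module.End A (A ⊗[ℤ] L))ˣ ≃* GL (b.support ⊕ ι) A :=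
  Units.mapEquiv (mat B A).toMulEquiv

lemma Phi_val (A : Type) [CommRing A] (g : (Module.End A (A ⊗[ℤ] L))ˣ) :
    (Phi B A g).val = mat B A g.val := rfl

lemma repr_app (A : Type) [CommRing A] (g : GL (b.support ⊕ ι) A) (v : A ⊗[ℤ] L) :
    (bc B A).bs.repr (((Phi B A).symm g).val v) =
      g.val.mulVec ((bc B A).bs.repr v) := by
  obtain ⟨h, rfl⟩ := (Phi B A).surjective g
  rw [MulEquiv.symm_apply_apply, Phi_val, mat]
  exact (LinearMap.toMatrix_mulVec_repr _ _ _ _).symm

end Pool.Agent.T2H67.Chev
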