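import Pool.Agent.T2H67.Chev.Peel

/-!
# Commutator relations, separation, Gauss decomposition
-/

namespace Pool.Agent.T2H67.Chev

open Module Pool.Agent.T2H35.Chev

set_option linter.unusedSectionVars false
set_option linter.unusedVariables false

variable {ι V W : Type} [Fintype ι] [DecidableEq ι] [AddCommGroup V] [Module ℚ V]
  [AddCommGroup W] [Module ℚ W]
variable {P : RootPairing ι ℚ V W} [P.IsCrystallographic] [P.IsReduced] [P.IsRootSystem]
    {b : P.Base} {A T : Type} [CommRing A] [LieRing T] [LieAlgebra A T] (C : CLie P b A T)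
    (hA : Good A)

namespace CLie

/-- bookkeeping of the action modulo `M` -/
def QQ (M : Submodule A T) (z : T) (i j : ι) (g : (Module.End A T)ˣ) (α β γ δ μ ν : A) : Prop :=
  (∀ v ∈ M, g.val v ∈ M) ∧ (g.val z - z ∈ M) ∧ (g.val (C.E i) - C.E i - γ • z ∈ M) ∧
  (g.val (C.E j) - C.E j - δ • z ∈ M) ∧ ∀ h ∈ C.Car, g.val h - h + (α * C.rt i h) • C.E i +
    (β * C.rt j h) • C.E j + (μ * C.rt i h + ν * C.rt j h) • z ∈ M

lemma QQ_mul {M : Submodule A T} {z : T} {i j : ι} {g g' : (Module.End A T)ˣ}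
    {α β γ δ μ ν α' β' γ' δ' μ' ν' : A} (h : C.QQ M z i j g α β γ δ μ ν)
    (h' : C.QQ M z i j g' α' β' γ' δ' μ' ν') :
    C.QQ M z i j (g * g') (α + α') (β + β') (γ + γ') (δ + δ') (μ + μ' + α' * γ)
      (ν + ν' + β' * δ) := by
  obtain ⟨h1, h2, h3, h4, h5⟩ := h
  obtain ⟨k1, k2, k3, k4, k5⟩ := h'
  refine ⟨fun v hv => h1 _ (k1 v hv), ?_, ?_, ?_, ?_⟩
  · have e : (g * g').val z - z = g.val (g'.val z - z) + (g.val z - z) := by
      rw [mul_app, map_sub]; abel
    rw [e]
    exact M.add_mem (h1 _ k2) h2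
  · have e : (g * g').val (C.E i) - C.E i - (γ + γ') • z =
        g.val (g'.val (C.E i) - C.E i - γ' • z) + (g.val (C.E i) - C.E i - γ • z) +
          γ' • (g.val z - z) := by
      rw [mul_app, map_sub, map_sub, map_smul]; module
    rw [e]
    exact M.add_mem (M.add_mem (h1 _ k3) h3) (M.smul_mem _ h2)
  · have e : (g * g').val (C.E j) - C.E j - (δ + δ') • z =
        g.val (g'.val (C.E j) - C.E j - δ' • z) + (g.val (C.E j) - C.E j - δ • z) +
          δ' • (g.val z - z) := by
      rw [mul_app, map_sub, map_sub, map_smul]; module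
    rw [e]
    exact M.add_mem (M.add_mem (h1 _ k4) h4) (M.smul_mem _ h2)
  · intro h hh
    have a1 := k5 h hh
    have a2 := h5 h hh
    have e : (g * g').val h - h + ((α + α') * C.rt i h) • C.E i +
        ((β + β') * C.rt j h) • C.E j + ((μ + μ' + α' * γ) * C.rt i h +
          (ν + ν' + β' * δ) * C.rt j h) • z =
        g.val (g'.val h - h + (α' * C.rt i h) • C.E i + (β' * C.rt j h) • C.E j +
          (μ' * C.rt i h + ν' * C.rt j h) • z) +
        (g.val h - h + (α * C.rt i h) • C.E i + (β * C.rt j h) • C.E j +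
          (μ * C.rt i h + ν * C.rt j h) • z) -
        (α' * C.rt i h) • (g.val (C.E i) - C.E i - γ • z) -
        (β' * C.rt j h) • (g.val (C.E j) - C.E j - δ • z) -
        (μ' * C.rt i h + ν' * C.rt j h) • (g.val z - z) := by
      rw [mul_app]
      simp only [map_add, map_sub, map_smul]
      module
    rw [e]
    exact M.sub_mem (M.sub_mem (M.sub_mem (M.add_mem (h1 _ a1) a2) (M.smul_mem _ h3))
      (M.smul_mem _ h4)) (M.smul_mem _ h2)

/-- second order expansion of a root element -/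
lemma X_second (c : ι) (s : A) {S : Set (b.support ⊕ ι)} {v : T} (hv : v ∈ C.Sp S) :
    (C.X hA c s).val v - v - s • C.D c v ∈
      C.Sp {k | ∃ k' ∈ S, ∃ a : ℕ, 2 ≤ a ∧ wt P b k = wt P b k' + a • P.root c} := by
  have h : (C.X hA c s).val v - v - s • C.D c v =
      (s ^ 2 * Ring.inverse 2) • ((C.D c) ^ 2) v +
      (s ^ 3 * Ring.inverse 6) • ((C.D c) ^ 3) v := by
    rw [X_val, ex]
    simp only [LinearMap.add_apply, LinearMap.smul_apply, Module.End.one_apply]
    abel
  rw [h]
  refine Submodule.add_mem _ ?_ ?_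
  · refine Submodule.smul_mem _ _ (C.Sp_mono ?_ (C.D_pow_mem c 2 hv))
    rintro k ⟨k', hk', h⟩
    exact ⟨k', hk', 2, le_rfl, h⟩
  · refine Submodule.smul_mem _ _ (C.Sp_mono ?_ (C.D_pow_mem c 3 hv))
    rintro k ⟨k', hk', h⟩
    exact ⟨k', hk', 3, by norm_num, h⟩

section Pair

variable {i j : ι} (h1 : i ≠ j) (h2 : P.root i ≠ - P.root j)

include h1 h2

lemma comm_mem (s t : A) :
    C.X hA i s * C.X hA j t * (C.X hA i s)⁻¹ * (C.X hA j t)⁻¹ ∈ C.US hA (Psi P i j) := by
  have hli := ell_left_pos P h1 h2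
  have hlj := ell_right_pos P h1 h2
  have hlP : ∀ k ∈ Psi P i j, 0 < ell P i j (P.root k) := fun k hk => ell_Psi_pos P h1 h2 hk
  have Qi : ∀ s, C.QQ (C.nn (Psi P i j)) 0 i j (C.X hA i s) s 0 0 0 0 0 := by
    intro s
    refine ⟨?_, by simp, ?_, ?_, ?_⟩
    · intro v hv
      have := C.X_nn hA (ell P i j) hli.le hlP (Ψ' := Psi P i j) (fun k hk => by
        rw [Psi_comm]; exact Psi_left_subset P hk) s hv
      have e : (C.X hA i s).val v = v + ((C.X hA i s).val v - v) := by abel
      rw [e]; exact Submodule.add_mem _ hv this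
    · rw [C.X_self]; simp
    · rw [smul_zero, sub_zero]
      refine C.X_nn hA (ell P i j) (Ψ := {j}) hli.le ?_ ?_ s (C.E_nn rfl)
      · intro k hk; rw [Set.mem_singleton_iff.1 hk]; exact hlj
      · intro k hk; rw [Set.mem_singleton_iff.1 hk, Psi_comm]
    · intro h hh
      rw [C.X_car hA i s hh]
      have : h - (s * C.rt i h) • C.E i - h + (s * C.rt i h) • C.E i + (0 * C.rt j h) • C.E j +
        (0 * C.rt i h + 0 * C.rt j h) • (0 : T) = 0 := by module
      rw [this]; exact Submodule.zero_mem _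
  have Qj : ∀ t, C.QQ (C.nn (Psi P i j)) 0 i j (C.X hA j t) 0 t 0 0 0 0 := by
    intro s
    refine ⟨?_, by simp, ?_, ?_, ?_⟩
    · intro v hv
      have := C.X_nn hA (ell P i j) hlj.le hlP (Ψ' := Psi P i j) (fun k hk => by
        rw [Psi_comm]; exact Psi_right_subset P hk) s hv
      have e : (C.X hA j s).val v = v + ((C.X hA j s).val v - v) := by abel
      rw [e]; exact Submodule.add_mem _ hv this
    · rw [smul_zero, sub_zero]
      refine C.X_nn hA (ell P i j) (Ψ := {i}) hlj.le ?_ ?_ s (C.E_nn rfl)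
      · intro k hk; rw [Set.mem_singleton_iff.1 hk]; exact hli
      · intro k hk; rw [Set.mem_singleton_iff.1 hk]
    · rw [C.X_self]; simp
    · intro h hh
      rw [C.X_car hA j s hh]
      have : h - (s * C.rt j h) • C.E j - h + (0 * C.rt i h) • C.E i + (s * C.rt j h) • C.E j +
        (0 * C.rt i h + 0 * C.rt j h) • (0 : T) = 0 := by module
      rw [this]; exact Submodule.zero_mem _
  refine C.peel hA (ell P i j) _ (Psi P i j) rfl (closed_Psi P i j) hlP _ ?_ ?_
  · exact mul_mem (mul_mem (mul_mem (C.X_US hA hli _) (C.X_US hA hlj _))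
      (inv_mem (C.X_US hA hli _))) (inv_mem (C.X_US hA hlj _))
  · intro h hh
    rw [X_inv, X_inv]
    have := C.QQ_mul (C.QQ_mul (C.QQ_mul (Qi s) (Qj t)) (Qi (-s))) (Qj (-t))
    have h5 := this.2.2.2.2 h hh
    have e : ∀ w : T, w + ((s + 0 + -s + 0) * C.rt i h) • C.E i +
        ((0 + t + 0 + -t) * C.rt j h) • C.E j = w := by intro w; module
    rw [smul_zero, add_zero, e] at h5
    exact h5

lemma lead_mem {k : ι} (hk : P.root k = P.root i + P.root j) (s t : A) :
    C.X hA k (-((C.Nc i j : A) * s * t)) *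
      (C.X hA i s * C.X hA j t * (C.X hA i s)⁻¹ * (C.X hA j t)⁻¹) ∈
        C.US hA (Psi P i j \ {k}) := by
  have hli := ell_left_pos P h1 h2
  have hlj := ell_right_pos P h1 h2
  have hlP : ∀ m ∈ Psi P i j, 0 < ell P i j (P.root m) := fun m hm => ell_Psi_pos P h1 h2 hm
  have hkP : k ∈ Psi P i j := mem_Psi_add P hk
  have hlk : ell P i j (P.root k) = ell P i j (P.root i) + ell P i j (P.root j) := by
    rw [hk, map_add]
  have hlk' : 0 < ell P i j (P.root k) := hlP k hkP
  have hge : ∀ m ∈ Psi P i j, ell P i j (P.root k) ≤ ell P i j (P.root m) := by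
    intro m hm
    rw [hlk]; exact linfun_Psi P hli hlj hm
  -- combinations
  have hcl : ∀ m ∈ Psi P i j, ∀ d, (d = i ∨ d = j ∨ d ∈ Psi P i j) →
      Psi P m d ⊆ Psi P i j \ {k} := by
    intro m hm d hd n hn
    have hld : 0 < ell P i j (P.root d) := by
      rcases hd with rfl | rfl | hd
      · exact hli
      · exact hlj
      · exact hlP d hd
    refine ⟨?_, ?_⟩
    · rcases hd with rfl | rfl | hd
      · exact Psi_left_subset P hm (by rwa [Psi_comm])
      · exact Psi_right_subset P hm (by rwa [Psi_comm])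
      · exact closed_Psi P i j m hm d hd hn
    · intro hnk
      have e1 := linfun_Psi P (hlP m hm) hld hn
      rw [Set.mem_singleton_iff.1 hnk] at e1
      have e2 := hge m hm
      linarith
  set M := C.nn (Psi P i j \ {k}) with hM
  have hXM : ∀ d, (d = i ∨ d = j ∨ d ∈ Psi P i j) → ∀ s, ∀ v ∈ M, (C.X hA d s).val v ∈ M := by
    intro d hd s v hv
    have hld : 0 < ell P i j (P.root d) := by
      rcases hd with rfl | rfl | hd
      · exact hli
      · exact hlj
      · exact hlP d hd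
    have := C.X_nn hA (ell P i j) hld.le (fun m hm => hlP m hm.1) (Ψ' := Psi P i j \ {k})
      (fun m hm => hcl m hm.1 d hd) s hv
    have e : (C.X hA d s).val v = v + ((C.X hA d s).val v - v) := by abel
    rw [e]; exact Submodule.add_mem _ hv this
  have hXz : ∀ d, (d = i ∨ d = j ∨ d ∈ Psi P i j) → ∀ s, (C.X hA d s).val (C.E k) - C.E k ∈ M := by
    intro d hd s
    have hld : 0 < ell P i j (P.root d) := by
      rcases hd with rfl | rfl | hd
      · exact hli
      · exact hlj
      · exact hlP d hd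
    refine C.X_nn hA (ell P i j) (Ψ := {k}) hld.le ?_ ?_ s (C.E_nn rfl)
    · intro m hm; rw [Set.mem_singleton_iff.1 hm]; exact hlk'
    · intro m hm; rw [Set.mem_singleton_iff.1 hm]; exact hcl k hkP d hd
  have hsec : ∀ (m d : ι) (r : A), (∀ a : ℕ, 2 ≤ a → ∀ n, P.root n = P.root m + a • P.root d →
      n ∈ Psi P i j \ {k}) → 0 < ell P i j (P.root m) → 0 < ell P i j (P.root d) →
      (C.X hA d r).val (C.E m) - C.E m - r • C.D d (C.E m) ∈ M := by
    intro m d r hmd hlm hld
    refine C.Sp_mono ?_ (C.X_second hA d r (C.bs_mem (S := {Sum.inr m}) rfl))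
    rintro k' ⟨k'', hk'', a, ha, hk'⟩
    rw [Set.mem_singleton_iff.1 hk''] at hk'
    simp only [wt, Sum.elim_inr] at hk'
    rcases k' with j' | n
    · simp only [Sum.elim_inl] at hk'
      have := congrArg (ell P i j) hk'
      rw [map_zero, map_add, map_nsmul, nsmul_eq_mul] at this
      have ha' : (2 : ℚ) ≤ a := by exact_mod_cast ha
      nlinarith
    · exact ⟨n, hmd a ha n hk', rfl⟩
  have hDij : C.D i (C.E j) = (C.Nc i j : A) • C.E k := by
    rw [LieAlgebra.ad_apply, C.ee i j k hk]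
  have hDji : C.D j (C.E i) = (-(C.Nc i j : A)) • C.E k := by
    rw [LieAlgebra.ad_apply, ← lie_skew, C.ee i j k hk, neg_smul]
  have hrtk : ∀ h, C.rt k h = C.rt i h + C.rt j h := by
    intro h
    simp only [rt_apply]
    rw [← Finset.sum_add_distrib]
    refine Finset.sum_congr rfl fun m _ => ?_
    have : P.pairingIn ℤ k m = P.pairingIn ℤ i m + P.pairingIn ℤ j m := by
      have e := congrArg (P.coroot' m) hk
      rw [map_add, coroot'_root, coroot'_root, coroot'_root] at e
      exact_mod_cast e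
    rw [this]; push_cast; ring
  have Qi : ∀ s, C.QQ M (C.E k) i j (C.X hA i s) s 0 0 (s * C.Nc i j) 0 0 := by
    intro s
    refine ⟨hXM i (Or.inl rfl) s, hXz i (Or.inl rfl) s, ?_, ?_, ?_⟩
    · rw [C.X_self]; simp
    · have := hsec j i s ?_ hlj hli
      · rwa [hDij, smul_smul] at this
      · intro a ha n hn
        refine ⟨⟨a, 1, by omega, le_rfl, by rw [hn, one_smul, add_comm]⟩, ?_⟩
        intro hnk
        rw [Set.mem_singleton_iff.1 hnk, hk] at hn
        have := congrArg (ell P i j) hn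
        rw [map_add, map_add, map_nsmul, nsmul_eq_mul] at this
        have ha' : (2 : ℚ) ≤ a := by exact_mod_cast ha
        nlinarith
    · intro h hh
      rw [C.X_car hA i s hh]
      have : h - (s * C.rt i h) • C.E i - h + (s * C.rt i h) • C.E i + (0 * C.rt j h) • C.E j +
        (0 * C.rt i h + 0 * C.rt j h) • C.E k = 0 := by module
      rw [this]; exact Submodule.zero_mem _
  have Qj : ∀ t, C.QQ M (C.E k) i j (C.X hA j t) 0 t (t * -C.Nc i j) 0 0 0 := by
    intro s
    refine ⟨hXM j (Or.inr (Or.inl rfl)) s, hXz j (Or.inr (Or.inl rfl)) s, ?_, ?_, ?_⟩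
    · have := hsec i j s ?_ hli hlj
      · rwa [hDji, smul_smul] at this
      · intro a ha n hn
        refine ⟨⟨1, a, le_rfl, by omega, by rw [hn, one_smul]⟩, ?_⟩
        intro hnk
        rw [Set.mem_singleton_iff.1 hnk, hk] at hn
        have := congrArg (ell P i j) hn
        rw [map_add, map_add, map_nsmul, nsmul_eq_mul] at this
        have ha' : (2 : ℚ) ≤ a := by exact_mod_cast ha
        nlinarith
    · rw [C.X_self]; simp
    · intro h hh
      rw [C.X_car hA j s hh]
      have : h - (s * C.rt j h) • C.E j - h + (0 * C.rt i h) • C.E i + (s * C.rt j h) • C.E j +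
        (0 * C.rt i h + 0 * C.rt j h) • C.E k = 0 := by module
      rw [this]; exact Submodule.zero_mem _
  have Qk : ∀ r, C.QQ M (C.E k) i j (C.X hA k r) 0 0 0 0 r r := by
    intro s
    refine ⟨hXM k (Or.inr (Or.inr hkP)) s, hXz k (Or.inr (Or.inr hkP)) s, ?_, ?_, ?_⟩
    · rw [zero_smul, sub_zero]
      refine C.X_nn hA (ell P i j) (Ψ := {i}) hlk'.le ?_ ?_ s (C.E_nn rfl)
      · intro m hm; rw [Set.mem_singleton_iff.1 hm]; exact hli
      · intro m hm
        rw [Set.mem_singleton_iff.1 hm, Psi_comm]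
        exact hcl k hkP i (Or.inl rfl)
    · rw [zero_smul, sub_zero]
      refine C.X_nn hA (ell P i j) (Ψ := {j}) hlk'.le ?_ ?_ s (C.E_nn rfl)
      · intro m hm; rw [Set.mem_singleton_iff.1 hm]; exact hlj
      · intro m hm
        rw [Set.mem_singleton_iff.1 hm, Psi_comm]
        exact hcl k hkP j (Or.inr (Or.inl rfl))
    · intro h hh
      rw [C.X_car hA k s hh, hrtk]
      have : h - (s * (C.rt i h + C.rt j h)) • C.E k - h + (0 * C.rt i h) • C.E i +
        (0 * C.rt j h) • C.E j + (s * C.rt i h + s * C.rt j h) • C.E k = 0 := by module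
      rw [this]; exact Submodule.zero_mem _
  refine C.peel hA (ell P i j) _ (Psi P i j \ {k}) rfl ?_ (fun m hm => hlP m hm.1) _ ?_ ?_
  · intro m hm d hd
    exact hcl m hm.1 d (Or.inr (Or.inr hd.1))
  · exact mul_mem (C.X_US hA hlk' _) (mul_mem (mul_mem (mul_mem (C.X_US hA hli _)
      (C.X_US hA hlj _)) (inv_mem (C.X_US hA hli _))) (inv_mem (C.X_US hA hlj _)))
  · intro h hh
    rw [X_inv, X_inv]
    have := C.QQ_mul (Qk (-((C.Nc i j : A) * s * t)))
      (C.QQ_mul (C.QQ_mul (C.QQ_mul (Qi s) (Qj t)) (Qi (-s))) (Qj (-t)))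
    have h5 := this.2.2.2.2 h hh
    exact Eq.subst (motive := fun w => w ∈ M) (by module) h5

end Pair

/-- separation -/
lemma US_car {Ψ : Set ι} (hcl : Closed P Ψ) (hpos : Pos P Ψ) {g : (Module.End A T)ˣ}
    (hg : g ∈ C.US hA Ψ) {h : T} (hh : h ∈ C.Car) : g.val h - h ∈ C.nn Ψ := by
  obtain ⟨l, hl⟩ := hpos
  have key : (∀ v ∈ C.nn Ψ, g.val v ∈ C.nn Ψ) ∧ ∀ h ∈ C.Car, g.val h - h ∈ C.nn Ψ := by
    refine C.US_ind hA (p := fun g => (∀ v ∈ C.nn Ψ, g.val v ∈ C.nn Ψ) ∧
      ∀ h ∈ C.Car, g.val h - h ∈ C.nn Ψ) ?_ ?_ ?_ hg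
    · exact ⟨fun v hv => hv, fun h _ => by simp⟩
    · intro d hd s
      constructor
      · intro v hv
        have := C.X_nn hA l (hl d hd).le hl (Ψ' := Ψ) (fun k hk => hcl k hk d hd) s hv
        have e : (C.X hA d s).val v = v + ((C.X hA d s).val v - v) := by abel
        rw [e]; exact Submodule.add_mem _ hv this
      · intro h hh
        rw [C.X_car hA d s hh]
        have e : h - (s * C.rt d h) • C.E d - h = -((s * C.rt d h) • C.E d) := by abel
        rw [e]
        exact Submodule.neg_mem _ (Submodule.smul_mem _ _ (C.E_nn hd))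
    · rintro g g' ⟨a1, a2⟩ ⟨b1, b2⟩
      refine ⟨fun v hv => a1 _ (b1 v hv), fun h hh => ?_⟩
      have e : (g * g').val h - h = g.val (g'.val h - h) + (g.val h - h) := by
        rw [mul_app, map_sub]; abel
      rw [e]
      exact Submodule.add_mem _ (a1 _ (b2 h hh)) (a2 h hh)
  exact key.2 h hh

lemma sep_US {Ψ : Set ι} (hcl : Closed P Ψ) (hpos : Pos P Ψ) {k : ι} (hk : k ∉ Ψ) {s : A}
    (hs : C.X hA k s ∈ C.US hA Ψ) : s = 0 := by
  have h1 := C.US_car hA hcl hpos hs (C.H_mem k)
  have h2 := h1 (Sum.inr k) (by rintro ⟨m, hm, e⟩; exact hk (Sum.inr_injective e ▸ hm))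
  rw [C.X_car hA k s (C.H_mem k), C.rt_self_H] at h2
  have h3 : C.bs.repr (C.H k) (Sum.inr k) = 0 := C.H_mem k _ (by rintro ⟨j, e⟩; cases e)
  simp only [map_sub, map_smul, Finsupp.sub_apply, Finsupp.smul_apply, h3, Basis.repr_self,
    Finsupp.single_eq_same, smul_eq_mul, mul_one, zero_sub, sub_zero] at h2
  refine hA.cancel 2 (by norm_num) (by norm_num) ?_
  rw [smul_eq_mul]; push_cast; linear_combination -h2

end CLie

end Pool.Agent.T2H67.Chev
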