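import Pool.Agent.T2H67.Chev.Aut

/-!
# The signs `η`
-/

namespace Pool.Agent.T2H67.Chev

open Module Pool.Agent.T2H35.Chev

set_option linter.unusedSectionVars false
set_option linter.unusedVariables false

variable {ι V W : Type} [Fintype ι] [DecidableEq ι] [AddCommGroup V] [Module ℚ V]
  [AddCommGroup W] [Module ℚ W]
variable {P : RootPairing ι ℚ V W} [P.IsCrystallographic] [P.IsReduced] [P.IsRootSystem]
    {b : P.Base} {A T : Type} [CommRing A] [LieRing T] [LieAlgebra A T] (C : CLie P b A T)

namespace CLie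

lemma Nc_eq {i j k : ι} (h : P.root k = P.root i + P.root j) :
    ∃ ε : ℤ, (ε = 1 ∨ ε = -1) ∧ C.Nc i j = ε * (P.chainBotCoeff i j + 1) := by
  have h1 := C.Nc_abs i j k h
  rcases abs_eq (by positivity : (0 : ℤ) ≤ P.chainBotCoeff i j + 1) |>.1 h1 with h2 | h2
  · exact ⟨1, Or.inl rfl, by rw [h2, one_mul]⟩
  · exact ⟨-1, Or.inr rfl, by rw [h2]; ring⟩

lemma refl_root (c i : ι) : P.root (P.reflectionPerm c i) =
    P.root i - (P.pairingIn ℤ i c : ℚ) • P.root c := by
  rw [P.root_reflectionPerm, P.reflection_apply_root, pairing_eq_cast]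

lemma neg_refl (c i : ι) : neg P (P.reflectionPerm c i) = P.reflectionPerm c (neg P i) := by
  apply P.root.injective
  rw [root_neg, P.root_reflectionPerm, P.root_reflectionPerm, root_neg, map_neg]

lemma refl_self (c : ι) : P.reflectionPerm c (neg P c) = c := by
  rw [← neg_refl]; exact neg_neg' P c

lemma lin_refl {c i : ι} (h1 : c ≠ i) (h2 : P.root c ≠ - P.root i) :
    neg P c ≠ P.reflectionPerm c i ∧ P.root (neg P c) ≠ - P.root (P.reflectionPerm c i) := by
  constructor
  · intro h
    apply h1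
    have : P.reflectionPerm c c = P.reflectionPerm c i := h
    exact (P.reflectionPerm c).injective this
  · intro h
    apply h2
    have h3 : P.root (P.reflectionPerm c c) = - P.root (P.reflectionPerm c i) := h
    rw [P.root_reflectionPerm, P.root_reflectionPerm, ← map_neg] at h3
    exact (P.reflection c).injective h3

lemma chain_refl {c i : ι} (h1 : c ≠ i) (h2 : P.root c ≠ - P.root i) :
    P.chainBotCoeff (neg P c) (P.reflectionPerm c i) = P.chainBotCoeff c i := by
  have hl := RootPairing.IsReduced.linearIndependent P h1 h2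
  obtain ⟨h3, h4⟩ := lin_refl h1 h2
  have hl' := RootPairing.IsReduced.linearIndependent P h3 h4
  have key : ∀ n : ℕ, n ≤ P.chainBotCoeff (neg P c) (P.reflectionPerm c i) ↔
      n ≤ P.chainBotCoeff c i := by
    intro n
    rw [← P.root_sub_nsmul_mem_range_iff_le_chainBotCoeff hl,
      ← P.root_sub_nsmul_mem_range_iff_le_chainBotCoeff hl']
    have : P.root (P.reflectionPerm c i) - n • P.root (neg P c) =
        P.reflection c (P.root i - n • P.root c) := by
      rw [map_sub, map_nsmul, ← P.root_reflectionPerm, ← P.root_reflectionPerm]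
    rw [this]
    constructor
    · rintro ⟨m, hm⟩
      refine ⟨P.reflectionPerm c m, ?_⟩
      rw [P.root_reflectionPerm, hm, P.reflection_same]
    · rintro ⟨m, hm⟩
      refine ⟨P.reflectionPerm c m, ?_⟩
      rw [P.root_reflectionPerm, hm]
  exact le_antisymm ((key _).1 le_rfl) ((key _).2 le_rfl)

variable (hA : Good A)

/-- powers of `ad e_{-c}` on a top vector -/
lemma top_pow {c i : ι} (h1 : c ≠ i) (h2 : P.root c ≠ - P.root i)
    (htop : P.chainTopCoeff c i = 0) (m : ℕ) (hm : m ≤ P.chainBotCoeff c i) :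
    ∃ k, P.root k = P.root i - m • P.root c ∧ P.chainTopCoeff c k = m ∧
      ∃ ε : ℤ, (ε = 1 ∨ ε = -1) ∧
      ((C.D (neg P c)) ^ m) (C.E i) = ((ε * m.factorial : ℤ) : A) • C.E k := by
  have hl := RootPairing.IsReduced.linearIndependent P h1 h2
  induction m with
  | zero => exact ⟨i, by simp, htop, 1, Or.inl rfl, by simp⟩
  | succ m ih =>
    obtain ⟨k, hk, hkt, ε, hε, hpow⟩ := ih (by omega)
    have h3 : P.root i - (m + 1) • P.root c ∈ Set.range P.root := by
      rw [P.root_sub_nsmul_mem_range_iff_le_chainBotCoeff hl]; exact hm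
    obtain ⟨l, hl'⟩ := h3
    have hlk : P.root k = P.root l + P.root c := by
      rw [hl', hk]; module
    have hlk' : P.root l = P.root (neg P c) + P.root k := by
      rw [root_neg, hlk]; abel
    have hcl : LinearIndependent ℚ ![P.root c, P.root l] := by
      have : P.root k - P.root c ∈ Set.range P.root := ⟨l, by rw [hlk]; abel⟩
      have h5 := P.linearIndependent_of_add_mem_range_root' (i := c) (j := l)
        ⟨k, by rw [hlk, add_comm]⟩
      exact h5
    refine ⟨l, hl', ?_, ?_⟩
    · rw [P.chainTopCoeff_of_add hcl hlk, hkt]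
    · obtain ⟨ε', hε', hN⟩ := C.Nc_eq hlk'
      refine ⟨ε' * ε, ?_, ?_⟩
      · rcases hε' with rfl | rfl <;> rcases hε with rfl | rfl <;> simp
      · rw [pow_succ', Module.End.mul_apply, hpow, map_smul, LieAlgebra.ad_apply,
          C.ee _ _ _ hlk', hN, P.chainBotCoeff_reflectionPerm_left, hkt, smul_smul]
        congr 1
        rw [Nat.factorial_succ]
        push_cast; ring

lemma n_top {c i : ι} (h1 : c ≠ i) (h2 : P.root c ≠ - P.root i)
    (htop : P.chainTopCoeff c i = 0) :
    ∃ η : ℤ, (η = 1 ∨ η = -1) ∧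
      (C.w hA c 1).val (C.E i) = (η : A) • C.E (P.reflectionPerm c i) := by
  have hl := RootPairing.IsReduced.linearIndependent P h1 h2
  obtain ⟨v, hv⟩ := C.w_E hA c 1 i
  set r := P.chainBotCoeff c i with hr
  have hr3 : r ≤ 3 := by
    have := P.chainBotCoeff_add_chainTopCoeff_le_three (i := c) (j := i)
    omega
  have hpair : P.pairingIn ℤ i c = r := by
    have := P.chainBotCoeff_sub_chainTopCoeff hl
    rw [htop] at this
    rw [← this]; simp [hr]
  have hroot : P.root (P.reflectionPerm c i) = P.root i - r • P.root c := by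
    rw [refl_root, hpair]
    push_cast
    rw [Nat.cast_smul_eq_nsmul]
  set f := C.bs.coord (Sum.inr (P.reflectionPerm c i)) with hf
  have hfv : f ((C.w hA c 1).val (C.E i)) = v := by
    rw [hv, map_smul, hf, Basis.coord_apply, Basis.repr_self]
    simp
  -- X_c(1) E_i = E_i
  have hDi : C.D c (C.E i) = 0 := by
    rw [LieAlgebra.ad_apply]
    apply C.ee0
    · intro h
      exact h2 (eq_neg_of_add_eq_zero_left h)
    · intro h
      have h3 : P.root i + 1 • P.root c ∈ Set.range P.root := by
        rw [one_smul, add_comm]; exact h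
      rw [P.root_add_nsmul_mem_range_iff_le_chainTopCoeff hl] at h3
      omega
  have hXi : (C.X hA c 1).val (C.E i) = C.E i := by
    rw [X_val, ex_apply, hDi]
    simp only [map_zero, smul_zero, add_zero]
  set Y := (C.X hA (neg P c) (-1)).val (C.E i) with hY
  have hw : (C.w hA c 1).val (C.E i) = (C.X hA c 1).val Y := by
    rw [w, mul_app, mul_app, hY]
    simp only [Units.val_one, inv_one]
    rw [hXi]
  -- support of Y
  have hYS : Y ∈ C.Sp {k | ∃ m : ℕ, wt P b k = P.root i - m • P.root c} := by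
    have h3 := C.X_sub_mem hA (neg P c) (-1) (C.bs_mem (S := {Sum.inr i}) rfl)
    have h4 : Y = C.E i + ((C.X hA (neg P c) (-1)).val (C.E i) - C.E i) := by
      rw [hY]; abel
    rw [h4]
    refine Submodule.add_mem _ (C.bs_mem ⟨0, by simp [wt]⟩) (C.Sp_mono ?_ h3)
    rintro k ⟨k', hk', a, ha, hk⟩
    refine ⟨a, ?_⟩
    rw [hk, Set.mem_singleton_iff.1 hk', root_neg]
    simp only [wt, Sum.elim_inr]
    module
  have hfX : f ((C.X hA c 1).val Y) = f Y := by
    rw [← sub_eq_zero, ← map_sub]
    refine C.X_sub_mem hA c 1 hYS _ ?_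
    rintro ⟨k', ⟨m, hm⟩, a, ha, hk⟩
    simp only [wt, Sum.elim_inr] at hk
    have h5 : wt P b k' = P.root i - (r + a) • P.root c := by
      have : wt P b k' = P.root (P.reflectionPerm c i) - a • P.root c := by
        rw [hk]; simp only [wt]; abel
      rw [this, hroot]; module
    rcases k' with j | m'
    · simp only [wt, Sum.elim_inl] at h5
      have := (LinearIndependent.pair_iff.1 hl) (-((r + a : ℕ) : ℚ)) 1 (by
        rw [one_smul, neg_smul, Nat.cast_smul_eq_nsmul, h5]; abel)
      exact one_ne_zero this.2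
    · simp only [wt, Sum.elim_inr] at h5
      have h6 : P.root i - (r + a) • P.root c ∈ Set.range P.root := ⟨m', h5⟩
      rw [P.root_sub_nsmul_mem_range_iff_le_chainBotCoeff hl] at h6
      omega
  -- value of f on the powers
  have hfD : ∀ m : ℕ, m ≠ r → f (((C.D (neg P c)) ^ m) (C.E i)) = 0 := by
    intro m hm
    refine C.D_pow_mem (neg P c) m (C.bs_mem (S := {Sum.inr i}) rfl) _ ?_
    rintro ⟨k', hk', hk⟩
    rw [Set.mem_singleton_iff.1 hk'] at hk
    simp only [wt, Sum.elim_inr] at hk
    rw [hroot, root_neg] at hk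
    have : ((m : ℚ) - r) • P.root c = 0 := by
      have h7 : (m : ℚ) • P.root c - (r : ℚ) • P.root c = 0 := by
        rw [Nat.cast_smul_eq_nsmul, Nat.cast_smul_eq_nsmul]
        have h8 : P.root i - r • P.root c - (P.root i + m • -P.root c) = 0 := by
          rw [hk]; abel
        rw [← h8]; module
      rw [sub_smul]; exact h7
    rcases smul_eq_zero.1 this with h9 | h9
    · apply hm
      have : (m : ℚ) = r := by linarith
      exact_mod_cast this
    · exact P.ne_zero c h9
  obtain ⟨k, hk, -, ε, hε, hpow⟩ := C.top_pow h1 h2 htop r le_rfl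
  have hkr : k = P.reflectionPerm c i := P.root.injective (by rw [hk, hroot])
  have hfr : f (((C.D (neg P c)) ^ r) (C.E i)) = ((ε * r.factorial : ℤ) : A) := by
    rw [hpow, map_smul, hkr, hf, Basis.coord_apply, Basis.repr_self]
    simp
  have hfY : f Y = f (((C.D (neg P c)) ^ 0) (C.E i)) + (-1) * f (((C.D (neg P c)) ^ 1) (C.E i))
      + Ring.inverse 2 * f (((C.D (neg P c)) ^ 2) (C.E i))
      - Ring.inverse 6 * f (((C.D (neg P c)) ^ 3) (C.E i)) := by
    rw [hY, X_val, ex]
    simp only [LinearMap.add_apply, LinearMap.smul_apply, Module.End.one_apply, pow_one, pow_zero,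
      map_add, map_smul, smul_eq_mul]
    ring
  refine ⟨(-1) ^ r * ε, ?_, ?_⟩
  · rcases hε with rfl | rfl <;> rcases neg_one_pow_eq_or ℤ r with h | h <;> simp [h]
  · rw [hv]
    congr 1
    rw [← hfv, hw, hfX, hfY]
    have h2' := hA.inv2
    have h6' := hA.inv6
    clear_value r
    interval_cases r
    · rw [hfr, hfD 1 (by norm_num), hfD 2 (by norm_num), hfD 3 (by norm_num)]
      simp
    · rw [hfr, hfD 0 (by norm_num), hfD 2 (by norm_num), hfD 3 (by norm_num)]
      simp
    · rw [hfr, hfD 0 (by norm_num), hfD 1 (by norm_num), hfD 3 (by norm_num)]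
      simp only [Nat.factorial]
      push_cast
      linear_combination (ε : A) * h2'
    · rw [hfr, hfD 0 (by norm_num), hfD 1 (by norm_num), hfD 2 (by norm_num)]
      simp only [Nat.factorial]
      push_cast
      linear_combination (-(ε : A)) * h6'

lemma n_E_aux : ∀ (q : ℕ) {c i : ι} (h1 : c ≠ i) (h2 : P.root c ≠ - P.root i)
    (htop : P.chainTopCoeff c i = q),
    ∃ η : ℤ, (η = 1 ∨ η = -1) ∧
      (C.w hA c 1).val (C.E i) = (η : A) • C.E (P.reflectionPerm c i) := by
  intro q
  induction q with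
  | zero => intro c i h1 h2 htop; exact C.n_top hA h1 h2 htop
  | succ q ih =>
    intro c i h1 h2 htop
    have hl := RootPairing.IsReduced.linearIndependent P h1 h2
    obtain ⟨v, hv⟩ := C.w_E hA c 1 i
    have h3 : P.root i + 1 • P.root c ∈ Set.range P.root := by
      rw [P.root_add_nsmul_mem_range_iff_le_chainTopCoeff hl]; omega
    obtain ⟨k, hk⟩ := h3
    rw [one_smul] at hk
    have htk : P.chainTopCoeff c k = q := by
      have := P.chainTopCoeff_of_add hl hk
      omega
    have hlk : LinearIndependent ℚ ![P.root c, P.root k] := by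
      rw [hk, add_comm]; simpa using hl
    obtain ⟨h5, h6⟩ := (RootPairing.IsReduced.linearIndependent_iff P).1 hlk
    obtain ⟨η, hη, hn⟩ := ih h5 h6 htk
    have hk' : P.root k = P.root c + P.root i := by rw [hk, add_comm]
    have hsk : P.root (P.reflectionPerm c k) =
        P.root (neg P c) + P.root (P.reflectionPerm c i) := by
      rw [P.root_reflectionPerm, hk', map_add, ← P.root_reflectionPerm, ← P.root_reflectionPerm]
    obtain ⟨ε₁, hε₁, hN₁⟩ := C.Nc_eq hk'
    obtain ⟨ε₂, hε₂, hN₂⟩ := C.Nc_eq hsk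
    rw [chain_refl h1 h2] at hN₂
    have e1 : (C.w hA c 1).val ⁅C.E c, C.E i⁆ =
        ⁅(C.w hA c 1).val (C.E c), (C.w hA c 1).val (C.E i)⁆ := C.w_mem hA c 1 _ _
    rw [C.ee _ _ _ hk', map_smul, hn, C.w_self, hv, smul_lie, lie_smul, C.ee _ _ _ hsk, hN₁,
      hN₂] at e1
    simp only [smul_smul, inv_one, Units.val_one] at e1
    have e2 := congrArg (fun w => C.bs.repr w (Sum.inr (P.reflectionPerm c k))) e1
    simp only [map_smul, Finsupp.smul_apply, Basis.repr_self, Finsupp.single_eq_same,
      smul_eq_mul, mul_one] at e2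
    set a := P.chainBotCoeff c i with ha
    have ha3 : a ≤ 3 := by
      have := P.chainBotCoeff_add_chainTopCoeff_le_three (i := c) (j := i)
      omega
    have e3 : ((a + 1 : ℤ) : A) • ((ε₁ : A) * η + v * ε₂) = 0 := by
      rw [smul_eq_mul]; push_cast at e2 ⊢; linear_combination e2
    have e4 := hA.cancel (a + 1 : ℤ) (by positivity) (by rw [abs_le]; omega) e3
    refine ⟨-(ε₁ * η * ε₂), ?_, ?_⟩
    · rcases hε₁ with rfl | rfl <;> rcases hε₂ with rfl | rfl <;> rcases hη with rfl | rfl <;> simp
    · rw [hv]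
      congr 1
      have h22 : (ε₂ : A) * ε₂ = 1 := by
        rcases hε₂ with rfl | rfl <;> simp
      push_cast
      linear_combination (ε₂ : A) * e4 - v * h22

lemma n_E (c i : ι) : ∃ η : ℤ, (η = 1 ∨ η = -1) ∧
      (C.w hA c 1).val (C.E i) = (η : A) • C.E (P.reflectionPerm c i) := by
  by_cases h1 : c = i
  · subst h1
    refine ⟨-1, Or.inr rfl, ?_⟩
    rw [C.w_self]; simp [neg]
  · by_cases h2 : P.root c = - P.root i
    · have : i = neg P c := by
        apply P.root.injective
        rw [root_neg, h2, neg_neg]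
      subst this
      refine ⟨-1, Or.inr rfl, ?_⟩
      rw [C.w_neg, refl_self]; simp
    · exact C.n_E_aux hA _ h1 h2 rfl

/-- the signs -/
noncomputable def eta (c i : ι) : ℤ := (C.n_E hA c i).choose

lemma eta_pm (c i : ι) : C.eta hA c i = 1 ∨ C.eta hA c i = -1 := (C.n_E hA c i).choose_spec.1

lemma n_E' (c i : ι) : (C.w hA c 1).val (C.E i) =
    (C.eta hA c i : A) • C.E (P.reflectionPerm c i) := (C.n_E hA c i).choose_spec.2

include hA in
lemma pm_inj [Nontrivial A] {x y : ℤ} (hx : x = 1 ∨ x = -1) (hy : y = 1 ∨ y = -1)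
    (h : (x : A) = y) : x = y := by
  have h2 : (2 : A) ≠ 0 := by
    have := hA.inv2
    intro h0
    rw [h0, zero_mul] at this
    exact zero_ne_one this
  rcases hx with rfl | rfl <;> rcases hy with rfl | rfl
  · rfl
  · exfalso; apply h2; push_cast at h; linear_combination h
  · exfalso; apply h2; push_cast at h; linear_combination -h
  · rfl

lemma E_inj {x y : A} {i : ι} (h : x • C.E i = y • C.E i) : x = y := by
  have := congrArg (fun w => C.bs.repr w (Sum.inr i)) h
  simpa using this

lemma eta_self [Nontrivial A] (c : ι) : C.eta hA c c = -1 := by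
  apply pm_inj hA (C.eta_pm hA c c) (Or.inr rfl)
  have h1 := C.n_E' hA c c
  rw [C.w_self] at h1
  have := C.E_inj h1
  rw [← this]; simp

lemma eta_neg [Nontrivial A] (c i : ι) : C.eta hA c (neg P i) = C.eta hA c i := by
  apply pm_inj hA (C.eta_pm hA c _) (C.eta_pm hA c i)
  have e1 : (C.w hA c 1).val ⁅C.E i, C.E (neg P i)⁆ =
        ⁅(C.w hA c 1).val (C.E i), (C.w hA c 1).val (C.E (neg P i))⁆ := C.w_mem hA c 1 _ _
  rw [C.EE_neg, C.n_E', C.n_E', smul_lie, lie_smul, ← neg_refl, C.EE_neg,
    C.w_car hA c 1 (C.H_mem i)] at e1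
  have e2 := congrArg (C.rt (P.reflectionPerm c i)) e1
  simp only [map_sub, map_smul, C.rt_self_H, smul_eq_mul] at e2
  rw [C.rt_reflection, C.rt_reflection, C.rt_self_H, C.rt_self_H, C.rt_H, C.rt_H] at e2
  have e3 : (2 : ℤ) • ((C.eta hA c i : A) * C.eta hA c (neg P i) - 1) = 0 := by
    rw [zsmul_eq_mul]; push_cast; linear_combination -e2
  have e4 : (C.eta hA c i : A) * C.eta hA c (neg P i) - 1 = 0 := by
    refine hA.cancel 2 (by norm_num) (by norm_num) ?_
    rw [smul_eq_mul]; simpa using e3
  have h5 : (C.eta hA c i : A) * C.eta hA c i = 1 := by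
    rcases C.eta_pm hA c i with h | h <;> rw [h] <;> simp
  linear_combination (C.eta hA c i : A) * e4 - (C.eta hA c (neg P i) : A) * h5

end CLie

end Pool.Agent.T2H67.Chev
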