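import Pool.Agent.T2H67.Chev.Torus

/-!
# Monomial elements
-/

namespace Pool.Agent.T2H67.Chev

open Module Pool.Agent.T2H35.Chev

set_option linter.unusedSectionVars false
set_option linter.unusedVariables false

variable {ι V W : Type} [Fintype ι] [DecidableEq ι] [AddCommGroup V] [Module ℚ V]
  [AddCommGroup W] [Module ℚ W]
variable {P : RootPairing ι ℚ V W} [P.IsCrystallographic] [P.IsReduced] [P.IsRootSystem]
    {b : P.Base} {A T : Type} [CommRing A] [LieRing T] [LieAlgebra A T] (C : CLie P b A T)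
    (hA : Good A)

namespace CLie

/-- monomial elements with entries of order dividing `m` -/
def mono (m : ℕ) (g : (Module.End A T)ˣ) : Prop :=
  ∀ i, ∃ j, ∃ u : A, u ^ m = 1 ∧ g.val (C.E i) = u • C.E j

lemma mono_one (m : ℕ) : C.mono m 1 := fun i => ⟨i, 1, one_pow _, by simp⟩

lemma mono_mul {m : ℕ} {g g' : (Module.End A T)ˣ} (h : C.mono m g) (h' : C.mono m g') :
    C.mono m (g * g') := by
  intro i
  obtain ⟨j, u, hu, e⟩ := h' i
  obtain ⟨k, u', hu', e'⟩ := h j
  exact ⟨k, u * u', by rw [mul_pow, hu, hu', one_mul], by rw [mul_app, e, map_smul, e', smul_smul]⟩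

lemma eq_of_smul_E [Nontrivial A] {i j : ι} {u : A} (h : C.E i = u • C.E j) : j = i ∧ u = 1 := by
  have h1 := congrArg (fun w => C.bs.repr w (Sum.inr i)) h
  simp only [map_smul, Finsupp.smul_apply, Basis.repr_self, Finsupp.single_eq_same,
    smul_eq_mul] at h1
  by_cases e : j = i
  · subst e
    rw [Finsupp.single_eq_same, mul_one] at h1
    exact ⟨rfl, h1.symm⟩
  · rw [Finsupp.single_apply, if_neg (fun e' => e (Sum.inr_injective e')), mul_zero] at h1
    exact absurd h1 one_ne_zero

lemma no_order_p [Nontrivial A] (p : ℕ) [hpf : Fact p.Prime] (hp : Fintype.card ι < p)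
    {g : (Module.End A T)ˣ} (hg : g ∈ LAut A T) (hm : C.mono (p - 1) g) (hgp : g ^ p = 1) :
    g = 1 := by
  choose f u hu hgE using hm
  have h1 : ∀ (n : ℕ) (i : ι), ∃ U : A, (g ^ n).val (C.E i) = U • C.E (f^[n] i) := by
    intro n i
    induction n with
    | zero => exact ⟨1, by simp⟩
    | succ n ih =>
      obtain ⟨U, hU⟩ := ih
      refine ⟨U * u (f^[n] i), ?_⟩
      rw [pow_succ', mul_app, hU, map_smul, hgE, smul_smul, Function.iterate_succ_apply']
  have hf : ∀ i, f i = i := by
    intro i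
    obtain ⟨U, hU⟩ := h1 p i
    rw [hgp] at hU
    have hper : Function.IsPeriodicPt f p i := (C.eq_of_smul_E hU).1
    have hd := hper.minimalPeriod_dvd
    rcases (Nat.dvd_prime hpf.out).1 hd with h | h
    · exact Function.minimalPeriod_eq_one_iff_isFixedPt.1 h
    · have := Function.minimalPeriod_le_card (f := f) (x := i)
      omega
  refine C.eq_one_of_fix hg fun i => ?_
  have h2 : ∀ n : ℕ, (g ^ n).val (C.E i) = (u i) ^ n • C.E i := by
    intro n
    induction n with
    | zero => simp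
    | succ n ih => rw [pow_succ', mul_app, ih, map_smul, hgE, hf, smul_smul, pow_succ]
  have h3 := h2 p
  rw [hgp] at h3
  have h4 := (C.eq_of_smul_E h3).2
  have h5 : u i = 1 := by
    have : (u i) ^ p = (u i) ^ (p - 1) * u i := by
      rw [← pow_succ]; congr 1
      have := hpf.out.pos
      omega
    rw [h4, hu, one_mul] at this
    exact this.symm
  rw [hgE, hf, h5, one_smul]

/-- the group generated by the torus elements and the `n_c` -/
noncomputable def NN (q : Aˣ) : Subgroup (Module.End A T)ˣ :=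
  Subgroup.closure ({g | ∃ e, g = C.tt hA e q} ∪ {g | ∃ c, g = C.w hA c 1})

lemma NN_LAut (q : Aˣ) : C.NN hA q ≤ LAut A T := by
  rw [NN, Subgroup.closure_le]
  rintro g (⟨e, rfl⟩ | ⟨c, rfl⟩)
  · exact C.tt_mem hA e q
  · exact C.w_mem hA c 1

lemma NN_mono {m : ℕ} (hm : Even m) {τ : Aˣ} (hτ : τ ^ m = 1) {g : (Module.End A T)ˣ}
    (hg : g ∈ C.NN hA (τ ^ 2)) : C.mono m g := by
  have hz : ∀ z : ℤ, ((((τ ^ 2) ^ z : Aˣ) : A)) ^ m = 1 := by
    intro z
    rw [← Units.val_pow_eq_pow_val]
    have : ((τ ^ 2) ^ z) ^ m = 1 := by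
      rw [← zpow_natCast, ← zpow_mul, mul_comm, zpow_mul, zpow_natCast, ← pow_mul, mul_comm 2 m,
        pow_mul, hτ, one_pow, one_zpow]
    rw [this, Units.val_one]
  have hpm : ∀ z : ℤ, (z = 1 ∨ z = -1) → (z : A) ^ m = 1 := by
    rintro z (rfl | rfl)
    · simp
    · push_cast; exact hm.neg_one_pow
  have key : C.mono m g ∧ C.mono m g⁻¹ := by
    induction hg using Subgroup.closure_induction with
    | mem x hx =>
      rcases hx with ⟨e, rfl⟩ | ⟨c, rfl⟩
      · constructor
        · intro i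
          exact ⟨i, _, hz _, C.tt_bs hA e τ (Sum.inr i)⟩
        · intro i
          refine ⟨i, (((τ ^ 2) ^ (-(wtp P b (Sum.inr i) e)) : Aˣ) : A), hz _, ?_⟩
          have h1 := congrArg (fun w => (C.tt hA e (τ ^ 2))⁻¹.val w)
            (C.tt_bs hA e τ (Sum.inr i))
          simp only [inv_app, map_smul] at h1
          have h2 := congrArg
            (fun w => (((τ ^ 2) ^ (-(wtp P b (Sum.inr i) e)) : Aˣ) : A) • w) h1
          simp only [smul_smul, ← Units.val_mul, ← zpow_add, neg_add_cancel, zpow_zero,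
            Units.val_one, one_smul] at h2
          exact h2.symm
      · constructor
        · intro i
          exact ⟨_, _, hpm _ (C.eta_pm hA c i), C.n_E' hA c i⟩
        · intro i
          exact ⟨_, _, hpm _ (C.eta_pm hA c _), C.n_inv_E hA c i⟩
    | one => simpa using C.mono_one m
    | mul x y hx hy ihx ihy =>
      exact ⟨C.mono_mul ihx.1 ihy.1, by rw [mul_inv_rev]; exact C.mono_mul ihy.2 ihx.2⟩
    | inv x hx ih => rw [inv_inv]; exact ⟨ih.2, ih.1⟩
  exact key.1

lemma tt_repr (e : ι) (τ : Aˣ) (v : T) (k : b.support ⊕ ι) :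
    C.bs.repr ((C.tt hA e (τ ^ 2)).val v) k =
      (((τ ^ 2) ^ (wtp P b k e) : Aˣ) : A) * C.bs.repr v k := by
  have key : (C.bs.coord k).comp (C.tt hA e (τ ^ 2)).val =
      (((τ ^ 2) ^ (wtp P b k e) : Aˣ) : A) • C.bs.coord k := by
    refine C.bs.ext fun l => ?_
    rw [LinearMap.comp_apply, LinearMap.smul_apply, tt_bs, map_smul]
    by_cases h : l = k
    · subst h; rfl
    · simp [h]
  have := congrArg (fun F => F v) key
  simpa using this

end CLie

end Pool.Agent.T2H67.Chev
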