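import Pool.Agent.T2H67.Chev.Eta

/-!
# The peeling lemma and commutator relations
-/

namespace Pool.Agent.T2H67.Chev

open Module Pool.Agent.T2H35.Chev

set_option linter.unusedSectionVars false
set_option linter.unusedVariables false

variable {ι V W : Type} [Fintype ι] [DecidableEq ι] [AddCommGroup V] [Module ℚ V]
  [AddCommGroup W] [Module ℚ W]
variable {P : RootPairing ι ℚ V W} [P.IsCrystallographic] [P.IsReduced] [P.IsRootSystem]
    {b : P.Base} {A T : Type} [CommRing A] [LieRing T] [LieAlgebra A T] (C : CLie P b A T)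
    (hA : Good A)

namespace CLie

/-- the group generated by the root elements in `Ψ` -/
noncomputable def US (Ψ : Set ι) : Subgroup (Module.End A T)ˣ :=
  Subgroup.closure {g | ∃ l ∈ Ψ, ∃ s, g = C.X hA l s}

/-- the span of the root vectors in `Ψ` -/
noncomputable def nn (Ψ : Set ι) : Submodule A T := C.Sp (Sum.inr '' Ψ)

lemma X_US {Ψ : Set ι} {l : ι} (hl : l ∈ Ψ) (s : A) : C.X hA l s ∈ C.US hA Ψ :=
  Subgroup.subset_closure ⟨l, hl, s, rfl⟩

lemma US_mono {Ψ Ψ' : Set ι} (h : Ψ ⊆ Ψ') : C.US hA Ψ ≤ C.US hA Ψ' := by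
  apply Subgroup.closure_mono
  rintro g ⟨l, hl, s, rfl⟩
  exact ⟨l, h hl, s, rfl⟩

lemma US_LAut (Ψ : Set ι) : C.US hA Ψ ≤ LAut A T := by
  rw [US, Subgroup.closure_le]
  rintro g ⟨l, hl, s, rfl⟩
  exact C.X_mem hA l s

/-- induction principle for closures of sets of root elements -/
lemma US_ind {Ψ : Set ι} {p : (Module.End A T)ˣ → Prop} (h1 : p 1)
    (hX : ∀ l ∈ Ψ, ∀ s, p (C.X hA l s)) (hm : ∀ g g', p g → p g' → p (g * g'))
    {g : (Module.End A T)ˣ} (hg : g ∈ C.US hA Ψ) : p g := by
  have : p g ∧ p g⁻¹ := by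
    induction hg using Subgroup.closure_induction with
    | mem x hx =>
      obtain ⟨l, hl, s, rfl⟩ := hx
      exact ⟨hX l hl s, by rw [X_inv]; exact hX l hl _⟩
    | one => simpa using h1
    | mul x y hx hy ihx ihy =>
      exact ⟨hm _ _ ihx.1 ihy.1, by rw [mul_inv_rev]; exact hm _ _ ihy.2 ihx.2⟩
    | inv x hx ih => rw [inv_inv]; exact ⟨ih.2, ih.1⟩
  exact this.1

lemma nn_mono {Ψ Ψ' : Set ι} (h : Ψ ⊆ Ψ') : C.nn Ψ ≤ C.nn Ψ' := C.Sp_mono (Set.image_mono h)

lemma E_nn {Ψ : Set ι} {l : ι} (hl : l ∈ Ψ) : C.E l ∈ C.nn Ψ := C.bs_mem ⟨l, hl, rfl⟩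

/-- an element of `n_Ψ` and a root element -/
lemma X_nn {Ψ Ψ' : Set ι} {d : ι} (l : V →ₗ[ℚ] ℚ) (hd : 0 ≤ l (P.root d))
    (hpos : ∀ k ∈ Ψ, 0 < l (P.root k)) (hcl : ∀ k ∈ Ψ, Psi P k d ⊆ Ψ')
    (s : A) {v : T} (hv : v ∈ C.nn Ψ) : (C.X hA d s).val v - v ∈ C.nn Ψ' := by
  refine C.Sp_mono ?_ (C.X_sub_mem hA d s hv)
  rintro k ⟨k', ⟨m, hm, rfl⟩, a, ha, hk⟩
  simp only [wt, Sum.elim_inr] at hk
  have ha' : (1 : ℚ) ≤ a := by exact_mod_cast ha
  have hlk : 0 < l (wt P b k) := by
    have : l (wt P b k) = l (P.root m) + a * l (P.root d) := by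
      simp only [wt]
      rw [hk, map_add, map_nsmul, nsmul_eq_mul]
    rw [this]
    have := hpos m hm
    positivity
  rcases k with j | m'
  · simp [wt] at hlk
  · refine ⟨m', hcl m hm ⟨1, a, le_rfl, ha, ?_⟩, rfl⟩
    simp only [Sum.elim_inr] at hk
    rw [hk, one_smul]

/-- upper unipotence with respect to a functional -/
lemma unip (l : V →ₗ[ℚ] ℚ) {g : (Module.End A T)ˣ} (hg : g ∈ C.US hA {j | 0 < l (P.root j)})
    (r : ℚ) {v : T} (hv : v ∈ C.Sp {k | r ≤ l (wt P b k)}) :
    g.val v - v ∈ C.Sp {k | r < l (wt P b k)} := by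
  have key : ∀ (r : ℚ) {v : T} (hv : v ∈ C.Sp {k | r ≤ l (wt P b k)}),
      g.val v - v ∈ C.Sp {k | r < l (wt P b k)} := by
    refine C.US_ind hA (p := fun g => ∀ (r : ℚ) {v : T} (hv : v ∈ C.Sp {k | r ≤ l (wt P b k)}),
      g.val v - v ∈ C.Sp {k | r < l (wt P b k)}) ?_ ?_ ?_ hg
    · intro r v hv
      simp
    · intro j hj s r v hv
      refine C.Sp_mono ?_ (C.X_sub_mem hA j s hv)
      rintro k ⟨k', hk', a, ha, hk⟩
      have ha' : (1 : ℚ) ≤ a := by exact_mod_cast ha
      have : l (wt P b k) = l (wt P b k') + a * l (P.root j) := by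
        rw [hk, map_add, map_nsmul, nsmul_eq_mul]
      have h1 : r ≤ l (wt P b k') := hk'
      have h2 : 0 < l (P.root j) := hj
      change r < l (wt P b k)
      rw [this]
      nlinarith
    · intro g g' ihg ihg' r v hv
      have h1 := ihg' r hv
      have h2 := ihg r hv
      have h3 : g.val (g'.val v - v) ∈ C.Sp {k | r < l (wt P b k)} := by
        refine C.map_Sp g.val (fun k hk => ?_) h1
        have h4 := ihg (l (wt P b k)) (C.bs_mem (k := k) (le_refl (l (wt P b k))))
        have h5 : g.val (C.bs k) = C.bs k + (g.val (C.bs k) - C.bs k) := by abel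
        rw [h5]
        refine Submodule.add_mem _ (C.bs_mem hk) (C.Sp_mono ?_ h4)
        intro k' hk'
        have e1 : r < l (wt P b k) := hk
        have e2 : l (wt P b k) < l (wt P b k') := hk'
        exact lt_trans e1 e2
      have h6 : (g * g').val v - v = g.val (g'.val v - v) + (g.val v - v) := by
        rw [mul_app, map_sub]; abel
      rw [h6]
      exact Submodule.add_mem _ h3 h2
  exact key r hv

lemma crd_support (j k : b.support) : C.crd j k = if k = j then 1 else 0 := by
  have h1 := C.crd_spec j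
  have hli : LinearIndependent ℚ (fun i : b.support => P.coroot i) := b.linearIndepOn_coroot
  have h2 : ∑ k : b.support, ((C.crd j k : ℚ) - if k = j then 1 else 0) • P.coroot k = 0 := by
    simp only [sub_smul, Finset.sum_sub_distrib, ite_smul, one_smul, zero_smul]
    rw [Finset.sum_ite_eq' Finset.univ j, if_pos (Finset.mem_univ _), sub_eq_zero]
    rw [h1]
    refine Finset.sum_congr rfl fun k _ => ?_
    rw [Int.cast_smul_eq_zsmul]
  have h3 := Fintype.linearIndependent_iff.1 hli _ h2 k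
  rw [sub_eq_zero] at h3
  split_ifs at h3 ⊢ with h
  · exact_mod_cast h3
  · exact_mod_cast h3

lemma H_support (j : b.support) : C.H j = C.bs (Sum.inl j) := by
  simp only [H, crd_support, Int.cast_ite, Int.cast_one, Int.cast_zero, ite_smul, one_smul,
    zero_smul]
  rw [Finset.sum_ite_eq' Finset.univ j, if_pos (Finset.mem_univ _)]

/-- an automorphism fixing all root vectors is trivial -/
lemma eq_one_of_fix {g : (Module.End A T)ˣ} (hg : g ∈ LAut A T) (h : ∀ i, g.val (C.E i) = C.E i) :
    g = 1 := by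
  apply Units.ext
  refine C.bs.ext fun k => ?_
  rcases k with j | i
  · rw [← C.H_support, ← C.EE_neg, hg, h, h]; rfl
  · rw [h]; rfl

/-- the case `Ψ = ∅` of the peeling lemma -/
lemma peel_empty (l : V →ₗ[ℚ] ℚ) {g : (Module.End A T)ˣ}
    (hg : g ∈ C.US hA {j | 0 < l (P.root j)}) (h : ∀ h ∈ C.Car, g.val h = h) : g = 1 := by
  have hL := C.US_LAut hA _ hg
  refine C.eq_one_of_fix hL fun i => ?_
  have h1 : g.val (C.E i) = C.bs.repr (g.val (C.E i)) (Sum.inr i) • C.E i := by
    refine C.wt_space hA i _ fun d => ?_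
    have : g.val ⁅C.H d, C.E i⁆ = ⁅g.val (C.H d), g.val (C.E i)⁆ := hL _ _
    rw [h _ (C.H_mem d), C.lie_bs_car (C.H_mem d), map_smul, C.rt_H] at this
    exact this.symm
  have h0 : C.E i ∈ C.Sp {k | l (P.root i) ≤ l (wt P b k)} :=
    C.bs_mem (k := Sum.inr i) (le_refl (l (P.root i)))
  have h2 := C.unip hA l hg (l (P.root i)) h0 (Sum.inr i) (fun e => by
    have e' : l (P.root i) < l (P.root i) := e
    exact lt_irrefl _ e')
  rw [map_sub, Finsupp.sub_apply, Basis.repr_self, Finsupp.single_eq_same, sub_eq_zero] at h2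
  rw [h1, h2, one_smul]

lemma lie_car_repr {h : T} (hh : h ∈ C.Car) (v : T) (i : ι) :
    C.bs.repr ⁅h, v⁆ (Sum.inr i) = C.rt i h * C.bs.repr v (Sum.inr i) := by
  have key : (C.bs.coord (Sum.inr i)).comp (LieAlgebra.ad A T h) =
      (C.rt i h) • C.bs.coord (Sum.inr i) := by
    refine C.bs.ext fun k => ?_
    rw [LinearMap.comp_apply, LieAlgebra.ad_apply, LinearMap.smul_apply]
    rcases k with j | i'
    · rw [C.car_comm hh (C.bs_mem ⟨j, rfl⟩), map_zero]
      simp
    · rw [C.lie_bs_car hh, map_smul]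
      by_cases e : i' = i
      · subst e; rfl
      · simp [e]
  have := congrArg (fun F => F v) key
  simpa [LieAlgebra.ad_apply] using this

/-- **Peeling lemma** -/
lemma peel (l : V →ₗ[ℚ] ℚ) : ∀ (n : ℕ) (Ψ : Set ι), Ψ.ncard = n → Closed P Ψ →
    (∀ k ∈ Ψ, 0 < l (P.root k)) → ∀ g ∈ C.US hA {j | 0 < l (P.root j)},
    (∀ h ∈ C.Car, g.val h - h ∈ C.nn Ψ) → g ∈ C.US hA Ψ := by
  intro n
  induction n with
  | zero =>
    intro Ψ hn hcl hpos g hg hgh
    have hΨ : Ψ = ∅ := (Set.ncard_eq_zero (Set.toFinite _)).1 hn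
    have : g = 1 := by
      refine C.peel_empty hA l hg fun h hh => ?_
      rw [← sub_eq_zero]
      refine C.Sp_empty ?_ (hgh h hh)
      subst hΨ; simp
    rw [this]; exact one_mem _
  | succ n ih =>
    intro Ψ hn hcl hpos g hg hgh
    have hne : Ψ.Nonempty := by
      rw [← Set.ncard_pos (Set.toFinite _)]; omega
    obtain ⟨d, hd, hmin⟩ := Set.exists_min_image Ψ (fun k => l (P.root k)) (Set.toFinite _) hne
    have hld := hpos d hd
    have hPd : ∀ i ∈ Ψ, ∀ j ∈ Ψ, ∀ k ∈ Psi P i j, l (P.root d) < l (P.root k) := by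
      intro i hi j hj k hk
      have h1 := linfun_Psi P (hpos i hi) (hpos j hj) hk
      have h2 := hmin i hi
      have h3 := hpos j hj
      linarith
    have hL := C.US_LAut hA _ hg
    set φ : T → A := fun v => C.bs.repr (g.val v - v) (Sum.inr d) with hφ
    have hφh : ∀ h ∈ C.Car, φ h = Ring.inverse 2 * C.rt d h * φ (C.H d) := by
      intro h hh
      have h1 : g.val ⁅C.H d, h⁆ = ⁅g.val (C.H d), g.val h⁆ := hL _ _
      rw [C.car_comm (C.H_mem d) hh, map_zero] at h1
      set a := g.val (C.H d) - C.H d with ha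
      set a' := g.val h - h with ha'
      have h2 : g.val (C.H d) = C.H d + a := by rw [ha]; abel
      have h3 : g.val h = h + a' := by rw [ha']; abel
      rw [h2, h3, add_lie, lie_add, lie_add, C.car_comm (C.H_mem d) hh, zero_add] at h1
      have h4 := congrArg (fun w => C.bs.repr w (Sum.inr d)) h1
      simp only [map_zero, map_add, Finsupp.add_apply, Finsupp.zero_apply] at h4
      have h5 : C.bs.repr ⁅a, a'⁆ (Sum.inr d) = 0 := by
        refine C.lie_mem (hgh _ (C.H_mem d)) (hgh h hh) _ ?_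
        rintro ⟨k₁, ⟨m₁, hm₁, rfl⟩, k₂, ⟨m₂, hm₂, rfl⟩, hk⟩
        simp only [wt, Sum.elim_inr] at hk
        have h6 := hmin m₁ hm₁
        have h7 := hpos m₂ hm₂
        have h8 := congrArg l hk
        rw [map_add] at h8
        linarith
      have h9 : C.bs.repr ⁅a, h⁆ (Sum.inr d) = - (C.rt d h * C.bs.repr a (Sum.inr d)) := by
        rw [← lie_skew, map_neg, Finsupp.neg_apply, C.lie_car_repr hh]
      rw [h5, h9, C.lie_car_repr (C.H_mem d), C.rt_self_H] at h4
      have h10 : (2 : A) * φ h = C.rt d h * φ (C.H d) := by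
        simp only [hφ, ← ha, ← ha']
        linear_combination -h4
      linear_combination (Ring.inverse 2 : A) * h10 - φ h * hA.inv2
    set s := -(Ring.inverse 2 * φ (C.H d)) with hs
    have hg' : C.X hA d (-s) * g ∈ C.US hA (Ψ \ {d}) := by
      refine ih (Ψ \ {d}) ?_ ?_ ?_ _ ?_ ?_
      · rw [Set.ncard_sdiff_singleton_of_mem hd, hn]; rfl
      · intro i hi j hj k hk
        refine ⟨hcl i hi.1 j hj.1 hk, ?_⟩
        intro hkd
        have := hPd i hi.1 j hj.1 k hk
        rw [Set.mem_singleton_iff.1 hkd] at this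
        exact lt_irrefl _ this
      · intro k hk; exact hpos k hk.1
      · refine mul_mem (C.X_US hA ?_ _) hg
        exact hld
      · intro h hh
        set a' := g.val h - h with ha'
        have hgv : g.val h = h + a' := by rw [ha']; abel
        set r' := a' - φ h • C.E d with hr'
        have har : a' = φ h • C.E d + r' := by rw [hr']; abel
        have hr'm : r' ∈ C.nn (Ψ \ {d}) := by
          intro k hk
          by_cases hkd : k = Sum.inr d
          · subst hkd
            rw [hr', map_sub, Finsupp.sub_apply, map_smul, Finsupp.smul_apply, Basis.repr_self,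
              Finsupp.single_eq_same, smul_eq_mul, mul_one]
            exact sub_self _
          · rw [hr', map_sub, Finsupp.sub_apply, map_smul, Finsupp.smul_apply, Basis.repr_self,
              Finsupp.single_apply, if_neg (Ne.symm hkd), smul_zero, sub_zero]
            refine hgh h hh k ?_
            rintro ⟨m, hm, rfl⟩
            exact hk ⟨m, ⟨hm, fun e => hkd (by rw [Set.mem_singleton_iff.1 e])⟩, rfl⟩
        have h1 : (C.X hA d (-s) * g).val h - h = r' + ((C.X hA d (-s)).val r' - r') := by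
          rw [mul_app, hgv, map_add, C.X_car hA d _ hh, har, map_add, map_smul, C.X_self,
            hφh h hh, hs]
          module
        rw [h1]
        refine Submodule.add_mem _ hr'm (C.X_nn hA l hld.le (fun k hk => hpos k hk.1) ?_ _ hr'm)
        intro k hk m hm
        refine ⟨hcl k hk.1 d hd hm, ?_⟩
        intro hmd
        have := hPd k hk.1 d hd m hm
        rw [Set.mem_singleton_iff.1 hmd] at this
        exact lt_irrefl _ this
    have : g = C.X hA d s * (C.X hA d (-s) * g) := by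
      rw [← mul_assoc, ← X_add, add_neg_cancel, X_zero, one_mul]
    rw [this]
    exact mul_mem (C.X_US hA hd _) (C.US_mono hA Set.sdiff_subset hg')

end CLie

end Pool.Agent.T2H67.Chev
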