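import Pool.Agent.T2H67.Chev.Comm

/-!
# Gauss decomposition, torus elements, monomial elements
-/

namespace Pool.Agent.T2H67.Chev

open Module Pool.Agent.T2H35.Chev

set_option linter.unusedSectionVars false
set_option linter.unusedVariables false

variable {ι V W : Type} [Fintype ι] [DecidableEq ι] [AddCommGroup V] [Module ℚ V]
  [AddCommGroup W] [Module ℚ W]
variable {P : RootPairing ι ℚ V W} [P.IsCrystallographic] [P.IsReduced] [P.IsRootSystem]
    {b : P.Base} {A T : Type} [CommRing A] [LieRing T] [LieAlgebra A T] (C : CLie P b A T)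
    (hA : Good A)

/-- the height as a linear functional -/
lemma exists_hgt (b : P.Base) : ∃ l : V →ₗ[ℚ] ℚ, ∀ i, l (P.root i) = b.height i := by
  refine ⟨b.toWeightBasis.constr ℚ (fun _ => (1 : ℚ)), fun i => ?_⟩
  obtain ⟨f, hf⟩ : ∃ f : ι → ℤ, P.root i = ∑ j ∈ b.support, f j • P.root j := by
    obtain ⟨f, _, _, hf⟩ := b.exists_root_eq_sum_int i
    exact ⟨f, hf⟩
  rw [RootPairing.Base.height_eq_sum hf, hf, map_sum]
  push_cast
  refine Finset.sum_congr rfl fun j hj => ?_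
  rw [map_zsmul]
  have h1 : (b.toWeightBasis.constr ℚ (fun _ => (1 : ℚ))) (P.root j) = 1 := by
    have := b.toWeightBasis.constr_basis ℚ (fun _ => (1 : ℚ)) ⟨j, hj⟩
    rwa [b.toWeightBasis_apply] at this
  rw [h1, zsmul_eq_mul, mul_one]

namespace CLie

/-- an element normalising all root groups multiplies root vectors by scalars -/
lemma normal_scal {g : (Module.End A T)ˣ} (hg : g ∈ LAut A T)
    (hn : ∀ i s, ∃ s', g * C.X hA i s * g⁻¹ = C.X hA i s') (i : ι) :
    ∃ u : A, g.val (C.E i) = u • C.E i := by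
  have h1 : ∀ i, ∃ s' : A, ∀ v : T, ⁅g.val (C.E i), v⁆ = s' • ⁅C.E i, v⁆ := by
    intro i
    obtain ⟨s', hs'⟩ := hn i 1
    refine ⟨s', fun v => ?_⟩
    have e1 := congrArg (fun x : (Module.End A T)ˣ => lg A x.val) hs'
    simp only [Units.val_mul, X_val] at e1
    rw [lg_conj, lg_ex hA (C.D_pow_four i), lg_ex hA (C.D_pow_four i), one_smul] at e1
    have e2 := congrArg (fun F : Module.End A T => F v) e1
    simp only [Module.End.mul_apply, LieAlgebra.ad_apply, LinearMap.smul_apply] at e2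
    rw [hg, app_inv] at e2
    exact e2
  obtain ⟨s₁, hs₁⟩ := h1 i
  obtain ⟨s₂, hs₂⟩ := h1 (neg P i)
  have h2 : g.val (C.H i) = (s₁ * s₂) • C.H i := by
    rw [← C.EE_neg, hg, hs₁, ← lie_skew, hs₂, ← lie_skew, C.EE_neg, mul_smul]
    simp only [smul_neg, neg_neg]
  have h3 : (2 : A) • g.val (C.E i) = (s₁ * s₂ * s₁ * 2) • C.E i := by
    have e1 : (2 : A) • C.E i = ⁅C.H i, C.E i⁆ := by
      rw [C.lie_bs_car (C.H_mem i), C.rt_self_H]
    rw [← map_smul, e1, hg, ← lie_skew, hs₁, h2, lie_smul, ← lie_skew, ← e1]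
    module
  refine ⟨s₁ * s₂ * s₁, ?_⟩
  have h4 := congrArg (fun w => (Ring.inverse 2 : A) • w) h3
  simp only [smul_smul] at h4
  rw [mul_comm (Ring.inverse 2) (2 : A), hA.inv2, one_smul] at h4
  rw [h4]
  congr 1
  linear_combination (s₁ * s₂ * s₁) * hA.inv2

lemma gauss_T {g u v : (Module.End A T)ˣ} (hg : g ∈ LAut A T)
    (hn : ∀ i s, ∃ s', g * C.X hA i s * g⁻¹ = C.X hA i s')
    (hu : u ∈ C.US hA {i | b.IsPos i}) (hv : v ∈ C.US hA {i | ¬ b.IsPos i})
    (h : g * u = v) : v = 1 := by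
  obtain ⟨l, hl⟩ := exists_hgt b
  have hpos : ∀ i, b.IsPos i ↔ 0 < l (P.root i) := by
    intro i
    rw [RootPairing.Base.isPos_iff, hl]
    exact Int.cast_pos.symm
  have hneg : ∀ i, ¬ b.IsPos i ↔ 0 < (-l) (P.root i) := by
    intro i
    rw [RootPairing.Base.isPos_iff, LinearMap.neg_apply, hl, not_lt, neg_pos]
    constructor
    · intro h
      exact_mod_cast lt_of_le_of_ne h (b.height_ne_zero i)
    · intro h
      have : b.height i < 0 := by exact_mod_cast h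
      exact this.le
  have hcl : ∀ l : V →ₗ[ℚ] ℚ, Closed P {i | 0 < l (P.root i)} := by
    intro l i hi j hj k hk
    have := linfun_Psi P hi hj hk
    have h1 : 0 < l (P.root i) := hi
    have h2 : 0 < l (P.root j) := hj
    change 0 < l (P.root k)
    linarith
  have hsp : {i | b.IsPos i} = {i | 0 < l (P.root i)} := Set.ext fun i => hpos i
  have hsn : {i | ¬ b.IsPos i} = {i | 0 < (-l) (P.root i)} := Set.ext fun i => hneg i
  have hgE := fun i => C.normal_scal hA hg hn i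
  choose c hc using hgE
  have hgn : ∀ w ∈ C.nn {i | b.IsPos i}, g.val w ∈ C.nn {i | b.IsPos i} := by
    intro w hw
    refine C.map_Sp g.val ?_ hw
    rintro k ⟨i, hi, rfl⟩
    rw [hc]
    exact Submodule.smul_mem _ _ (C.E_nn hi)
  have hgc : ∀ w ∈ C.Car, g.val w ∈ C.Car := by
    intro w hw
    refine C.map_Sp g.val ?_ hw
    rintro k ⟨j, rfl⟩
    rw [← C.H_support, ← C.EE_neg, hg, hc, hc, smul_lie, lie_smul, C.EE_neg]
    exact Submodule.smul_mem _ _ (Submodule.smul_mem _ _ (C.H_mem j))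
  refine C.peel_empty hA (-l) (by rw [← hsn]; exact hv) fun h₀ hh₀ => ?_
  have hc1 : Closed P {i | b.IsPos i} := by rw [hsp]; exact hcl l
  have hp1 : Pos P {i | b.IsPos i} := ⟨l, fun k hk => (hpos k).1 hk⟩
  have hc2 : Closed P {i | ¬ b.IsPos i} := by rw [hsn]; exact hcl (-l)
  have hp2 : Pos P {i | ¬ b.IsPos i} := ⟨-l, fun k hk => (hneg k).1 hk⟩
  have e1 := C.US_car hA hc1 hp1 hu hh₀
  have e2 := C.US_car hA hc2 hp2 hv hh₀
  have e3 : v.val h₀ = g.val h₀ + g.val (u.val h₀ - h₀) := by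
    rw [← h, mul_app, map_sub]; abel
  rw [← sub_eq_zero]
  apply C.bs.repr.injective
  ext k
  rw [map_zero, Finsupp.zero_apply]
  by_cases hk : k ∈ Sum.inr '' {i | ¬ b.IsPos i}
  · obtain ⟨i, hi, rfl⟩ := hk
    have e4 : v.val h₀ - h₀ = (g.val h₀ - h₀) + g.val (u.val h₀ - h₀) := by rw [e3]; abel
    rw [e4, map_add, Finsupp.add_apply, Submodule.sub_mem _ (hgc _ hh₀) hh₀ _
      (by rintro ⟨j, e⟩; cases e), hgn _ e1 _ (by
        rintro ⟨m, hm, e⟩
        exact hi (Sum.inr_injective e ▸ hm)), add_zero]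
  · exact e2 k hk

/-- criterion for automorphisms -/
lemma LAut_of_basis {g : (Module.End A T)ˣ}
    (h : ∀ k k', g.val ⁅C.bs k, C.bs k'⁆ = ⁅g.val (C.bs k), g.val (C.bs k')⁆) :
    g ∈ LAut A T := by
  have key : ((LieAlgebra.ad A T : T →ₗ[A] Module.End A T)).compr₂ g.val =
      ((LieAlgebra.ad A T : T →ₗ[A] Module.End A T)).compl₁₂ g.val g.val := by
    refine LinearMap.ext_basis C.bs C.bs fun k k' => ?_
    simpa using h k k'
  intro u v
  have := congrArg (fun F : T →ₗ[A] T →ₗ[A] T => F u v) key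
  simpa using this

lemma coroot_wt (k : b.support ⊕ ι) (e : ι) :
    P.coroot' e (wt P b k) = (wtp P b k e : ℚ) := by
  rcases k with j | i
  · simp [wt, wtp]
  · simp only [wt, wtp, Sum.elim_inr]; rw [coroot'_root]

/-- diagonal automorphisms -/
noncomputable def ddL (e : ι) (τ : Aˣ) : Module.End A T :=
  C.bs.constr A (fun k => ((τ ^ (wtp P b k e) : Aˣ) : A) • C.bs k)

lemma ddL_bs (e : ι) (τ : Aˣ) (k : b.support ⊕ ι) :
    C.ddL e τ (C.bs k) = ((τ ^ (wtp P b k e) : Aˣ) : A) • C.bs k := by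
  rw [ddL, Basis.constr_basis]

noncomputable def dd (e : ι) (τ : Aˣ) : (Module.End A T)ˣ where
  val := C.ddL e τ
  inv := C.ddL e τ⁻¹
  val_inv := by
    refine C.bs.ext fun k => ?_
    rw [Module.End.mul_apply, ddL_bs, map_smul, ddL_bs, smul_smul, ← Units.val_mul,
      ← mul_zpow, inv_mul_cancel, one_zpow]
    simp
  inv_val := by
    refine C.bs.ext fun k => ?_
    rw [Module.End.mul_apply, ddL_bs, map_smul, ddL_bs, smul_smul, ← Units.val_mul,
      ← mul_zpow, mul_inv_cancel, one_zpow]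
    simp

lemma dd_bs (e : ι) (τ : Aˣ) (k : b.support ⊕ ι) :
    (C.dd e τ).val (C.bs k) = ((τ ^ (wtp P b k e) : Aˣ) : A) • C.bs k := C.ddL_bs e τ k

lemma dd_inv_bs (e : ι) (τ : Aˣ) (k : b.support ⊕ ι) :
    (C.dd e τ)⁻¹.val (C.bs k) = ((τ⁻¹ ^ (wtp P b k e) : Aˣ) : A) • C.bs k := C.ddL_bs e τ⁻¹ k

lemma dd_mem (e : ι) (τ : Aˣ) : C.dd e τ ∈ LAut A T := by
  refine C.LAut_of_basis fun k k' => ?_
  rw [dd_bs, dd_bs, smul_lie, lie_smul, smul_smul, ← Units.val_mul, ← zpow_add]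
  have h1 := C.bs_lie_mem k k'
  have h2 : C.Sp {l | wt P b l = wt P b k + wt P b k'} ≤
      LinearMap.ker ((C.dd e τ).val -
        ((τ ^ (wtp P b k e + wtp P b k' e) : Aˣ) : A) • (LinearMap.id : T →ₗ[A] T)) := by
    refine C.Sp_le fun l hl => ?_
    rw [LinearMap.mem_ker, LinearMap.sub_apply, LinearMap.smul_apply, LinearMap.id_apply, dd_bs]
    have h3 : wtp P b l e = wtp P b k e + wtp P b k' e := by
      have := congrArg (P.coroot' e) (show wt P b l = wt P b k + wt P b k' from hl)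
      rw [map_add, coroot_wt, coroot_wt, coroot_wt] at this
      exact_mod_cast this
    rw [h3, sub_self]
  have h3 := h2 h1
  rw [LinearMap.mem_ker, LinearMap.sub_apply, LinearMap.smul_apply, LinearMap.id_apply,
    sub_eq_zero] at h3
  exact h3

/-- the torus elements -/
noncomputable def tt (e : ι) (q : Aˣ) : (Module.End A T)ˣ := C.w hA e q * (C.w hA e 1)⁻¹

lemma wt_self (e : ι) : wtp P b (Sum.inr e) e = 2 := by simp [wtp]

lemma wt_neg (e : ι) : wtp P b (Sum.inr (neg P e)) e = -2 := by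
  simp [wtp, neg]

lemma dd_w (e : ι) (τ : Aˣ) : C.dd e τ * C.w hA e 1 * (C.dd e τ)⁻¹ = C.w hA e (τ ^ 2) := by
  have h1 : ∀ s, C.dd e τ * C.X hA e s * (C.dd e τ)⁻¹ = C.X hA e (((τ ^ 2 : Aˣ) : A) * s) :=
    fun s => C.X_conj hA (C.dd_mem e τ) (by rw [dd_bs, wt_self]; norm_cast) s
  have h2 : ∀ s, C.dd e τ * C.X hA (neg P e) s * (C.dd e τ)⁻¹ =
      C.X hA (neg P e) ((((τ ^ 2)⁻¹ : Aˣ) : A) * s) :=
    fun s => C.X_conj hA (C.dd_mem e τ) (by rw [dd_bs, wt_neg, zpow_neg]; norm_cast) s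
  have h3 : C.dd e τ * C.w hA e 1 * (C.dd e τ)⁻¹ =
      (C.dd e τ * C.X hA e 1 * (C.dd e τ)⁻¹) *
      (C.dd e τ * C.X hA (neg P e) (-1) * (C.dd e τ)⁻¹) *
      (C.dd e τ * C.X hA e 1 * (C.dd e τ)⁻¹) := by
    rw [w]; simp only [Units.val_one, inv_one]; group
  rw [h3, h1, h2, w]
  simp

lemma tt_eq (e : ι) (τ : Aˣ) : C.tt hA e (τ ^ 2) =
    C.dd e τ * C.w hA e 1 * (C.dd e τ)⁻¹ * (C.w hA e 1)⁻¹ := by rw [tt, dd_w]

lemma tt_mem (e : ι) (q : Aˣ) : C.tt hA e q ∈ LAut A T :=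
  mul_mem (C.w_mem hA _ _) (inv_mem (C.w_mem hA _ _))

lemma n_inv_E (c i : ι) : (C.w hA c 1)⁻¹.val (C.E i) =
    (C.eta hA c (P.reflectionPerm c i) : A) • C.E (P.reflectionPerm c i) := by
  have h := C.n_E' hA c (P.reflectionPerm c i)
  rw [P.reflectionPerm_self] at h
  have h2 := congrArg (fun w => (C.w hA c 1)⁻¹.val w) h
  simp only [inv_app, map_smul] at h2
  rw [h2, smul_smul]
  have h5 : (C.eta hA c (P.reflectionPerm c i) : A) * C.eta hA c (P.reflectionPerm c i) = 1 := by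
    rcases C.eta_pm hA c (P.reflectionPerm c i) with h | h <;> rw [h] <;> simp
  rw [h5, one_smul]

lemma car_dd (e : ι) (τ : Aˣ) {h : T} (hh : h ∈ C.Car) : (C.dd e τ).val h = h := by
  have : C.Car ≤ LinearMap.ker ((C.dd e τ).val - (LinearMap.id : T →ₗ[A] T)) := by
    refine C.Sp_le ?_
    rintro k ⟨j, rfl⟩
    rw [LinearMap.mem_ker, LinearMap.sub_apply, LinearMap.id_apply, dd_bs]
    simp [wtp]
  have := this hh
  rwa [LinearMap.mem_ker, LinearMap.sub_apply, LinearMap.id_apply, sub_eq_zero] at this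

lemma w_car_mem (c : ι) (u : Aˣ) {h : T} (hh : h ∈ C.Car) : (C.w hA c u).val h ∈ C.Car := by
  rw [C.w_car hA c u hh]
  exact Submodule.sub_mem _ hh (Submodule.smul_mem _ _ (C.H_mem c))

lemma w_w_car (c : ι) (u u' : Aˣ) {h : T} (hh : h ∈ C.Car) :
    (C.w hA c u).val ((C.w hA c u').val h) = h := by
  rw [C.w_car hA c u (C.w_car_mem hA c u' hh), C.w_car hA c u' hh, map_sub, map_smul,
    C.rt_self_H]
  module

lemma w_inv_car (c : ι) (u : Aˣ) {h : T} (hh : h ∈ C.Car) :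
    (C.w hA c u)⁻¹.val h = (C.w hA c u).val h := by
  have := C.w_w_car hA c u u hh
  conv_lhs => rw [← this, inv_app]

lemma tt_car (e : ι) (q : Aˣ) {h : T} (hh : h ∈ C.Car) : (C.tt hA e q).val h = h := by
  rw [tt, mul_app, C.w_inv_car hA e 1 hh, C.w_w_car hA e q 1 hh]

lemma tt_bs (e : ι) (τ : Aˣ) (k : b.support ⊕ ι) : (C.tt hA e (τ ^ 2)).val (C.bs k) =
    (((τ ^ 2) ^ (wtp P b k e) : Aˣ) : A) • C.bs k := by
  rcases k with j | i
  · rw [C.tt_car hA e _ (C.bs_mem ⟨j, rfl⟩)]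
    simp [wtp]
  · rw [tt_eq, mul_app, mul_app, mul_app, C.n_inv_E]
    simp only [map_smul]
    rw [dd_inv_bs]
    simp only [map_smul]
    rw [C.n_E', P.reflectionPerm_self]
    simp only [map_smul]
    rw [dd_bs]
    simp only [smul_smul]
    congr 1
    have h5 : (C.eta hA e (P.reflectionPerm e i) : A) * C.eta hA e (P.reflectionPerm e i) = 1 := by
      rcases C.eta_pm hA e (P.reflectionPerm e i) with h | h <;> rw [h] <;> simp
    have h6 : wtp P b (Sum.inr (P.reflectionPerm e i)) e = - wtp P b (Sum.inr i) e := by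
      have h8 := congrArg (P.coroot' e) (refl_root (P := P) e i)
      rw [map_sub, map_smul, coroot'_root, coroot'_root, coroot'_root, P.pairingIn_same] at h8
      simp only [wtp, Sum.elim_inr]
      push_cast at h8
      rw [smul_eq_mul] at h8
      have h9 : (P.pairingIn ℤ (P.reflectionPerm e i) e : ℚ) = -(P.pairingIn ℤ i e : ℚ) := by
        rw [h8]; ring
      exact_mod_cast h9
    rw [h6, inv_zpow, zpow_neg, inv_inv]
    have h7 : (τ ^ 2) ^ (wtp P b (Sum.inr i) e) =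
        τ ^ (wtp P b (Sum.inr i) e) * τ ^ (wtp P b (Sum.inr i) e) := by
      rw [sq, mul_zpow]
    rw [h7, Units.val_mul]
    linear_combination (((τ ^ (wtp P b (Sum.inr i) e) : Aˣ) : A) ^ 2) * h5

end CLie

end Pool.Agent.T2H67.Chev
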